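import Mathlib

/-! Integers composed of given primes: divisors up to a given bound, residue classes in intervals,
regularity of the counting function (helper49). -/

set_option autoImplicit false

namespace Pool.Agent.K7.H49.SM

open Finset

/-- The positive integers up to `X` all of whose prime factors belong to `P`. -/
def S (P : Finset ℕ) (X : ℕ) : Finset ℕ := (Icc 1 X).filter (fun n => n.primeFactors ⊆ P)

/-- The number of the positive integers up to `X` all of whose prime factors belong to `P`. -/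
def psi (P : Finset ℕ) (X : ℕ) : ℕ := (S P X).card

variable {P : Finset ℕ} {y : ℕ}

lemma mem_S {P : Finset ℕ} {X n : ℕ} : n ∈ S P X ↔ 1 ≤ n ∧ n ≤ X ∧ n.primeFactors ⊆ P := by
  unfold S
  rw [mem_filter, mem_Icc, and_assoc]

lemma S_mono {X Y : ℕ} (h : X ≤ Y) : S P X ⊆ S P Y := by
  intro n hn
  rw [mem_S] at hn ⊢
  exact ⟨hn.1, hn.2.1.trans h, hn.2.2⟩

lemma psi_mono {X Y : ℕ} (h : X ≤ Y) : psi P X ≤ psi P Y := card_le_card (S_mono h)

lemma one_mem {X : ℕ} (h : 1 ≤ X) : 1 ∈ S P X := by
  rw [mem_S]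
  exact ⟨le_rfl, h, by simp⟩

lemma psi_pos {X : ℕ} (h : 1 ≤ X) : 1 ≤ psi P X := card_pos.2 ⟨1, one_mem h⟩

lemma psi_le (P : Finset ℕ) (X : ℕ) : psi P X ≤ X := by
  unfold psi S
  refine (card_filter_le _ _).trans ?_
  rw [Nat.card_Icc]; omega

lemma mul_mem {A B m n : ℕ} (hm : m ∈ S P A) (hn : n ∈ S P B) : m * n ∈ S P (A * B) := by
  rw [mem_S] at hm hn ⊢
  refine ⟨Nat.mul_pos hm.1 hn.1, Nat.mul_le_mul hm.2.1 hn.2.1, ?_⟩
  rw [Nat.primeFactors_mul (by omega) (by omega)]
  exact union_subset hm.2.2 hn.2.2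

lemma dvd_mem {X Y n d : ℕ} (hn : n ∈ S P X) (hd : d ∣ n) (hY : d ≤ Y) : d ∈ S P Y := by
  rw [mem_S] at hn ⊢
  have h0 : n ≠ 0 := by omega
  exact ⟨Nat.pos_of_dvd_of_pos hd (by omega), hY, (Nat.primeFactors_mono hd h0).trans hn.2.2⟩

/-- a divisor just below a given bound -/
lemma greedy (hP : ∀ p ∈ P, p.Prime ∧ p ≤ y) {X V n : ℕ} (hn : n ∈ S P X) (hV : 1 ≤ V) (hVn : V < n) :
    ∃ v, v ∣ n ∧ v ≤ V ∧ V < v * y := by
  classical
  have hn' := mem_S.1 hn
  set D := n.divisors.filter (fun d => d ≤ V) with hD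
  have h1 : 1 ∈ D := by
    rw [hD, mem_filter, Nat.mem_divisors]
    exact ⟨⟨one_dvd _, by omega⟩, hV⟩
  obtain ⟨v, hv, hmax⟩ := exists_max_image D id ⟨1, h1⟩
  rw [hD, mem_filter, Nat.mem_divisors] at hv
  obtain ⟨⟨hvn, hn0⟩, hvV⟩ := hv
  refine ⟨v, hvn, hvV, ?_⟩
  obtain ⟨u, hu⟩ := hvn
  have hu1 : u ≠ 1 := by
    rintro rfl
    omega
  obtain ⟨p, hp, hpu⟩ := Nat.exists_prime_and_dvd hu1
  have hu0 : u ≠ 0 := by rintro rfl; omega
  have hpP : p ∈ P := hn'.2.2 (Nat.mem_primeFactors.2 ⟨hp, hu ▸ hpu.mul_left v, hn0⟩)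
  by_contra hcon
  push Not at hcon
  have h2 : v * p ∈ D := by
    rw [hD, mem_filter, Nat.mem_divisors]
    refine ⟨⟨?_, hn0⟩, le_trans (Nat.mul_le_mul_left _ (hP p hpP).2) hcon⟩
    rw [hu]
    exact Nat.mul_dvd_mul_left v hpu
  have h3 := hmax _ h2
  simp only [id] at h3
  have h4 := hp.two_le
  have hv1 : 1 ≤ v := by
    rcases Nat.eq_zero_or_pos v with h | h
    · subst h; simp at hu; omega
    · exact h
  nlinarith

/-- few pairwise congruent integers lie in a short interval -/
lemma card_congr_le (T : Finset ℕ) (b H Q : ℕ) (hQ : 1 ≤ Q) (hT : ∀ x ∈ T, b < x ∧ x ≤ b + H)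
    (hc : ∀ x ∈ T, ∀ x' ∈ T, x % Q = x' % Q) : T.card ≤ H / Q + 2 := by
  have h1 : T.card ≤ (Icc (b / Q) (b / Q + H / Q + 1)).card := by
    apply card_le_card_of_injOn (fun x => x / Q)
    · intro x hx
      have := hT x hx
      rw [coe_Icc, Set.mem_Icc]
      refine ⟨Nat.div_le_div_right this.1.le, ?_⟩
      have h2 : x / Q ≤ (b + H) / Q := Nat.div_le_div_right this.2
      have h3 : (b + H) / Q ≤ b / Q + H / Q + 1 := by
        have e1 := Nat.div_add_mod b Q
        have e2 := Nat.div_add_mod H Q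
        have e3 := Nat.mod_lt b hQ
        have e4 := Nat.mod_lt H hQ
        rw [← Nat.lt_succ_iff, Nat.div_lt_iff_lt_mul hQ]
        have e5 : (b / Q + H / Q + 1).succ * Q = Q * (b / Q) + Q * (H / Q) + 2 * Q := by
          rw [Nat.succ_eq_add_one]; ring
        rw [e5]
        omega
      exact h2.trans h3
    · intro x hx x' hx' h
      have h2 := hc x hx x' hx'
      simp only at h
      rw [← Nat.div_add_mod x Q, ← Nat.div_add_mod x' Q, h, h2]
  rw [Nat.card_Icc] at h1
  generalize b / Q = A at h1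
  generalize H / Q = A' at h1 ⊢
  omega

/-- The members of a residue class in an interval. -/
lemma class_count (hP : ∀ p ∈ P, p.Prime ∧ p ≤ y) (X b H q c : ℕ) (hq : 1 ≤ q) (T : Finset ℕ)
    (hT : ∀ l ∈ T, l ∈ S P X ∧ b < l ∧ l ≤ b + H ∧ l % q = c) :
    T.card ≤ (y + 3) * psi P (max 1 (H / q)) := by
  classical
  set V := max 1 (H / q) with hV
  have hV1 : 1 ≤ V := le_max_left _ _
  rcases T.eq_empty_or_nonempty with h0 | ⟨l0, hl0⟩
  · rw [h0, card_empty]; exact Nat.zero_le _
  set g := Nat.gcd l0 q with hg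
  have hg1 : 1 ≤ g := Nat.gcd_pos_of_pos_right _ hq
  have hgcd : ∀ l ∈ T, Nat.gcd l q = g := by
    intro l hl
    have h1 : l ≡ l0 [MOD q] := by
      unfold Nat.ModEq
      rw [(hT l hl).2.2.2, (hT l0 hl0).2.2.2]
    exact h1.gcd_eq
  have hgl : ∀ l ∈ T, g ∣ l := fun l hl => hgcd l hl ▸ Nat.gcd_dvd_left l q
  -- small quotients
  set T1 := T.filter (fun l => l / g ≤ V) with hT1
  set T2 := T.filter (fun l => ¬ l / g ≤ V) with hT2
  have hsplit : T.card = T1.card + T2.card := by
    rw [hT1, hT2, card_filter_add_card_filter_not]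
  have hmem : ∀ l ∈ T, ∀ Y, l / g ≤ Y → l / g ∈ S P Y := by
    intro l hl Y hY
    exact dvd_mem (hT l hl).1 (Nat.div_dvd_of_dvd (hgl l hl)) hY
  have c1 : T1.card ≤ psi P V := by
    apply card_le_card_of_injOn (fun l => l / g)
    · intro l hl
      rw [hT1, coe_filter] at hl
      exact hmem l hl.1 V hl.2
    · intro l hl l' hl' h
      rw [hT1, coe_filter] at hl hl'
      simp only at h
      rw [← Nat.div_mul_cancel (hgl l hl.1), ← Nat.div_mul_cancel (hgl l' hl'.1), h]
  have hex : ∀ l ∈ T2, ∃ v, v ∣ l / g ∧ v ≤ V ∧ V < v * y := by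
    intro l hl
    rw [hT2, mem_filter] at hl
    exact greedy hP (hmem l hl.1 (l / g) le_rfl) hV1 (by omega)
  choose! f hf1 hf2 hf3 using hex
  have c2 : T2.card ≤ (y + 2) * psi P V := by
    have h1 : T2.card = ∑ v ∈ S P V, (T2.filter (fun l => f l = v)).card := by
      apply card_eq_sum_card_fiberwise
      intro l hl
      have hl' := (mem_filter.1 (mem_coe.1 hl)).1
      exact dvd_mem (hmem l hl' _ le_rfl) (hf1 l hl) (hf2 l hl)
    rw [h1]
    have h2 : ∀ v ∈ S P V, (T2.filter (fun l => f l = v)).card ≤ y + 2 := by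
      intro v hv
      rcases (T2.filter (fun l => f l = v)).eq_empty_or_nonempty with h3 | ⟨l1, hl1⟩
      · rw [h3, card_empty]; exact Nat.zero_le _
      have hv1 := (mem_S.1 hv).1
      have hvy : V < v * y := by
        have := hf3 l1 (mem_filter.1 hl1).1
        rwa [(mem_filter.1 hl1).2] at this
      have hQ : 1 ≤ v * q := Nat.mul_pos hv1 hq
      have h4 := card_congr_le (T2.filter (fun l => f l = v)) b H (v * q) hQ (by
        intro l hl
        have hl2 := (mem_filter.1 ((mem_filter.1 hl).1)).1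
        exact ⟨(hT l hl2).2.1, (hT l hl2).2.2.1⟩) (by
        intro l hl l' hl'
        have hlT := (mem_filter.1 ((mem_filter.1 hl).1)).1
        have hlT' := (mem_filter.1 ((mem_filter.1 hl').1)).1
        have hv2 : v ∣ l / g := by
          have := hf1 l (mem_filter.1 hl).1
          rwa [(mem_filter.1 hl).2] at this
        have hv3 : v ∣ l' / g := by
          have := hf1 l' (mem_filter.1 hl').1
          rwa [(mem_filter.1 hl').2] at this
        obtain ⟨u, hu⟩ := hv2
        obtain ⟨u', hu'⟩ := hv3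
        have el : l = g * v * u := by
          rw [← Nat.mul_div_cancel' (hgl l hlT), hu]; ring
        have el' : l' = g * v * u' := by
          rw [← Nat.mul_div_cancel' (hgl l' hlT'), hu']; ring
        obtain ⟨q1, hq1⟩ : g ∣ q := Nat.gcd_dvd_right _ _
        have hcop : Nat.Coprime q1 v := by
          have h5 : Nat.Coprime (l / g) (q / g) := by
            have := Nat.coprime_div_gcd_div_gcd (m := l) (n := q) (by rw [hgcd l hlT]; exact hg1)
            rwa [hgcd l hlT] at this
          have h6 : q / g = q1 := by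
            rw [hq1]; exact Nat.mul_div_cancel_left _ hg1
          rw [h6, hu] at h5
          exact (Nat.Coprime.coprime_mul_right h5).symm
        have hmod : l ≡ l' [MOD q] := by
          unfold Nat.ModEq
          rw [(hT l hlT).2.2.2, (hT l' hlT').2.2.2]
        rw [el, el', hq1, mul_assoc, mul_assoc] at hmod
        have h7 : v * u ≡ v * u' [MOD q1] := Nat.ModEq.mul_left_cancel' (by omega) hmod
        have h8 : u ≡ u' [MOD q1] := Nat.ModEq.cancel_left_of_coprime hcop h7
        have h9 : g * v * u ≡ g * v * u' [MOD g * v * q1] := Nat.ModEq.mul_left' _ h8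
        have e3 : v * q = g * v * q1 := by rw [hq1]; ring
        rw [e3, el, el']
        exact h9)
      have h5 : H / (v * q) ≤ y := by
        have h6 : H / q ≤ V := le_max_right _ _
        have h7 : H < (V + 1) * q := by
          rw [← Nat.div_lt_iff_lt_mul hq]
          omega
        have h8 : H < v * y * q := lt_of_lt_of_le h7 (Nat.mul_le_mul_right _ (by omega))
        have h9 : H / (v * q) < y := by
          rw [Nat.div_lt_iff_lt_mul hQ]
          calc H < v * y * q := h8
            _ = y * (v * q) := by ring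
        exact h9.le
      omega
    calc ∑ v ∈ S P V, (T2.filter (fun l => f l = v)).card ≤ ∑ _v ∈ S P V, (y + 2) := sum_le_sum h2
      _ = (y + 2) * psi P V := by rw [sum_const, smul_eq_mul, mul_comm]; rfl
  calc T.card = T1.card + T2.card := hsplit
    _ ≤ psi P V + (y + 2) * psi P V := Nat.add_le_add c1 c2
    _ = (y + 3) * psi P V := by ring

/-- a few more numbers -/
lemma psi_mul_le (hP : ∀ p ∈ P, p.Prime ∧ p ≤ y) (X : ℕ) (hX : 1 ≤ X) :
    psi P (y * X) ≤ (y * y + 1) * psi P X := by
  classical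
  set T2 := (S P (y * X)).filter (fun n => ¬ n ≤ X) with hT2
  have hsplit : psi P (y * X) = ((S P (y * X)).filter (fun n => n ≤ X)).card + T2.card := by
    unfold psi
    rw [hT2, card_filter_add_card_filter_not]
  have c1 : ((S P (y * X)).filter (fun n => n ≤ X)).card ≤ psi P X := by
    apply card_le_card
    intro n hn
    rw [mem_filter, mem_S] at hn
    rw [mem_S]
    exact ⟨hn.1.1, hn.2, hn.1.2.2⟩
  have hex : ∀ n ∈ T2, ∃ v, v ∣ n ∧ v ≤ X ∧ X < v * y := by
    intro n hn
    rw [hT2, mem_filter] at hn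
    exact greedy hP hn.1 hX (by omega)
  choose! f hf1 hf2 hf3 using hex
  have c2 : T2.card ≤ (S P X ×ˢ range (y * y)).card := by
    apply card_le_card_of_injOn (fun n => (f n, n / f n))
    · intro n hn
      have hn' := mem_filter.1 (mem_coe.1 hn)
      have h1 := mem_S.1 hn'.1
      rw [mem_coe, mem_product]
      refine ⟨dvd_mem hn'.1 (hf1 n hn) (hf2 n hn), ?_⟩
      rw [mem_range]
      have hpos : 0 < f n := Nat.pos_of_dvd_of_pos (hf1 n hn) h1.1
      show n / f n < y * y
      rw [Nat.div_lt_iff_lt_mul hpos]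
      have h2 := hf3 n hn
      have hy : 0 < y := by
        rcases Nat.eq_zero_or_pos y with h | h
        · subst h; omega
        · exact h
      calc n ≤ y * X := h1.2.1
        _ < y * (f n * y) := Nat.mul_lt_mul_of_pos_left h2 hy
        _ = y * y * f n := by ring
    · intro n hn n' hn' h
      simp only [Prod.mk.injEq] at h
      have e1 := Nat.div_mul_cancel (hf1 n hn)
      have e2 := Nat.div_mul_cancel (hf1 n' hn')
      rw [← e1, ← e2, h.2, h.1]
  rw [card_product, card_range] at c2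
  calc psi P (y * X) ≤ psi P X + psi P X * (y * y) := by rw [hsplit]; exact Nat.add_le_add c1 c2
    _ = (y * y + 1) * psi P X := by ring

/-- regularity: there are many products -/
lemma reg_nat (hP : ∀ p ∈ P, p.Prime ∧ p ≤ y) (z N D k U : ℕ) (hz : 2 ≤ z) (hU : Nat.log z N ≤ U)
    (hk : y ^ k ≤ D) (_hD : 1 ≤ D) :
    psi P (N / D) * (P.filter (fun p => z ≤ p)).card ^ k ≤ psi P N * U ^ k := by
  classical
  set Q := P.filter (fun p => z ≤ p) with hQ
  set A := S P (N / D) ×ˢ Fintype.piFinset (fun _ : Fin k => Q) with hA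
  have hAc : A.card = psi P (N / D) * Q.card ^ k := by
    rw [hA, card_product, Fintype.card_piFinset, prod_const, card_univ, Fintype.card_fin]; rfl
  have hprod1 : ∀ f ∈ Fintype.piFinset (fun _ : Fin k => Q), 1 ≤ ∏ i, f i ∧ ∏ i, f i ≤ y ^ k := by
    intro f hf
    rw [Fintype.mem_piFinset] at hf
    constructor
    · apply Nat.one_le_iff_ne_zero.2
      rw [prod_ne_zero_iff]
      intro i _
      exact (hP _ (mem_filter.1 (hf i)).1).1.ne_zero
    · calc ∏ i, f i ≤ ∏ _i : Fin k, y := prod_le_prod' fun i _ => (hP _ (mem_filter.1 (hf i)).1).2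
        _ = y ^ k := by rw [prod_const, card_univ, Fintype.card_fin]
  have hprodP : ∀ f ∈ Fintype.piFinset (fun _ : Fin k => Q), (∏ i, f i).primeFactors ⊆ P := by
    intro f hf p hp
    rw [Fintype.mem_piFinset] at hf
    have hp1 := Nat.prime_of_mem_primeFactors hp
    have hp2 := Nat.dvd_of_mem_primeFactors hp
    obtain ⟨i, _, hi⟩ := (hp1.prime.dvd_finsetProd_iff _).1 hp2
    have h3 := mem_filter.1 (hf i)
    rw [(Nat.prime_dvd_prime_iff_eq hp1 (hP _ h3.1).1).1 hi]
    exact h3.1
  have hmaps : ∀ x ∈ A, x.1 * ∏ i, x.2 i ∈ S P N := by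
    rintro ⟨l, f⟩ hx
    rw [hA, mem_product] at hx
    obtain ⟨h1, h2⟩ := hx
    simp only at h1 h2 ⊢
    have h3 := mem_S.1 h1
    rw [mem_S]
    have h4 := hprod1 f h2
    refine ⟨Nat.mul_pos h3.1 h4.1, ?_, ?_⟩
    · calc l * ∏ i, f i ≤ (N / D) * D := Nat.mul_le_mul h3.2.1 (h4.2.trans hk)
        _ ≤ N := Nat.div_mul_le_self _ _
    · rw [Nat.primeFactors_mul (by omega) (by omega)]
      exact union_subset h3.2.2 (hprodP f h2)
  have hfib : ∀ n ∈ S P N, (A.filter (fun x => x.1 * ∏ i, x.2 i = n)).card ≤ U ^ k := by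
    intro n hn
    have hn' := mem_S.1 hn
    set R := n.primeFactors.filter (fun p => z ≤ p) with hR
    have hRc : R.card ≤ U := by
      refine le_trans ?_ hU
      have h1 : z ^ R.card ≤ ∏ p ∈ R, p := by
        rw [← prod_const]
        exact prod_le_prod' fun p hp => (mem_filter.1 hp).2
      have h2 : ∏ p ∈ R, p ≤ n := by
        apply Nat.le_of_dvd (by omega)
        exact (prod_dvd_prod_of_subset _ _ _ (filter_subset _ _)).trans (Nat.prod_primeFactors_dvd n)
      exact Nat.le_log_of_pow_le (by omega) (h1.trans (h2.trans hn'.2.1))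
    calc (A.filter (fun x => x.1 * ∏ i, x.2 i = n)).card ≤ (Fintype.piFinset (fun _ : Fin k => R)).card := by
          apply card_le_card_of_injOn (fun x => x.2)
          · rintro ⟨l, f⟩ hx
            rw [coe_filter, Set.mem_ofPred_eq, hA, mem_product] at hx
            obtain ⟨⟨h1, h2⟩, h3⟩ := hx
            simp only at h1 h2 h3
            rw [mem_coe, Fintype.mem_piFinset]
            intro i
            have h4 := mem_filter.1 (Fintype.mem_piFinset.1 h2 i)
            rw [hR, mem_filter, Nat.mem_primeFactors]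
            refine ⟨⟨(hP _ h4.1).1, ?_, by omega⟩, h4.2⟩
            rw [← h3]
            exact (dvd_prod_of_mem _ (mem_univ i)).mul_left l
          · rintro ⟨l, f⟩ hx ⟨l', f'⟩ hx' h
            rw [coe_filter, Set.mem_ofPred_eq, hA, mem_product] at hx hx'
            simp only at h hx hx'
            subst h
            have h1 := (hprod1 f hx.1.2).1
            have h2 : l * ∏ i, f i = l' * ∏ i, f i := hx.2.trans hx'.2.symm
            rw [Nat.eq_of_mul_eq_mul_right h1 h2]
      _ = R.card ^ k := by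
          rw [Fintype.card_piFinset, prod_const, card_univ, Fintype.card_fin]
      _ ≤ U ^ k := Nat.pow_le_pow_left hRc _
  rw [← hAc, card_eq_sum_card_fiberwise (f := fun x : ℕ × (Fin k → ℕ) => x.1 * ∏ i, x.2 i) (t := S P N)
    (fun x hx => hmaps x hx)]
  calc ∑ n ∈ S P N, (A.filter (fun x => x.1 * ∏ i, x.2 i = n)).card ≤ ∑ _n ∈ S P N, U ^ k := sum_le_sum hfib
    _ = psi P N * U ^ k := by rw [sum_const, smul_eq_mul]; rfl

end Pool.Agent.K7.H49.SM
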