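import Mathlib
import Pool.Agent.K7.H49.SM.Basic
import Pool.Agent.H807R2.Dav1

/-! Exponential sums over the integers composed of given primes: the decomposition into a product of the
small prime factors and of the large ones, and the bilinear bound (helper49). -/

set_option autoImplicit false

namespace Pool.Agent.K7.H49.SM

open Finset
open Pool.Agent.H807R2.Dav

variable {P : Finset ℕ} {y : ℕ}

/-- the products of the small prime factors, the largest one is `p` -/
def Ms (P : Finset ℕ) (y M p : ℕ) : Finset ℕ :=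
  (S P (M * y)).filter (fun m => p ∣ m ∧ (∀ q ∈ m.primeFactors, q ≤ p) ∧ m / p ≤ M ∧ M < m)

/-- the products of the large prime factors, all at least `p` -/
def Ls (P : Finset ℕ) (L p : ℕ) : Finset ℕ :=
  (S P L).filter (fun l => ∀ q ∈ l.primeFactors, p ≤ q)

lemma decomp_exists (hP : ∀ p ∈ P, p.Prime ∧ p ≤ y) {X M n : ℕ} (hM : 1 ≤ M) (hn : n ∈ S P X) (hMn : M < n) :
    ∃ p ∈ P, ∃ m ∈ Ms P y M p, ∃ l ∈ Ls P (X / M) p, m * l = n := by
  classical
  have hn' := mem_S.1 hn
  have hn0 : n ≠ 0 := by omega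
  set D := n.divisors.filter (fun d => M < d ∧ ∀ q ∈ d.primeFactors, ∀ r ∈ (n / d).primeFactors, q ≤ r) with hD
  have h1 : n ∈ D := by
    rw [hD, mem_filter, Nat.mem_divisors]
    refine ⟨⟨dvd_rfl, hn0⟩, hMn, ?_⟩
    intro q _ r hr
    rw [Nat.div_self (by omega)] at hr
    simp at hr
  obtain ⟨m, hm, hmin⟩ := exists_min_image D id ⟨n, h1⟩
  rw [hD, mem_filter, Nat.mem_divisors] at hm
  obtain ⟨⟨hmn, -⟩, hMm, hpre⟩ := hm
  have hm0 : m ≠ 0 := by omega
  have hne : m.primeFactors.Nonempty := by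
    rw [Nat.nonempty_primeFactors]; omega
  obtain ⟨p, hp, hpmax⟩ := exists_max_image m.primeFactors id hne
  simp only [id] at hpmax hmin
  have hpp := Nat.prime_of_mem_primeFactors hp
  have hpm := Nat.dvd_of_mem_primeFactors hp
  have hpP : p ∈ P := hn'.2.2 (Nat.primeFactors_mono hmn hn0 hp)
  obtain ⟨l, hl⟩ := hmn
  have hl0 : l ≠ 0 := by rintro rfl; omega
  have hnm : n / m = l := by rw [hl]; exact Nat.mul_div_cancel_left _ (by omega)
  rw [hnm] at hpre
  obtain ⟨m', hm'⟩ := hpm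
  have hmp : m / p = m' := by rw [hm']; exact Nat.mul_div_cancel_left _ hpp.pos
  have hm'0 : m' ≠ 0 := by rintro rfl; omega
  have hle : m / p ≤ M := by
    by_contra hcon
    push Not at hcon
    rw [hmp] at hcon
    have h2 : m' ∈ D := by
      rw [hD, mem_filter, Nat.mem_divisors]
      refine ⟨⟨⟨p * l, by rw [hl, hm']; ring⟩, hn0⟩, hcon, ?_⟩
      intro q hq r hr
      have e : n / m' = p * l := by
        rw [hl, hm', show p * m' * l = m' * (p * l) by ring]
        exact Nat.mul_div_cancel_left _ (by omega)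
      rw [e, Nat.primeFactors_mul hpp.ne_zero hl0, mem_union, hpp.primeFactors, mem_singleton] at hr
      have hq' : q ∈ m.primeFactors := Nat.primeFactors_mono ⟨p, by rw [hm']; ring⟩ hm0 hq
      rcases hr with rfl | hr
      · exact hpmax q hq'
      · exact hpre q hq' r hr
    have h3 := hmin m' h2
    rw [hm'] at h3
    have := hpp.two_le
    have : 1 ≤ m' := Nat.one_le_iff_ne_zero.2 hm'0
    nlinarith
  have hmS : m ∈ S P (M * y) := by
    apply dvd_mem hn ⟨l, hl⟩
    calc m = (m / p) * p := (Nat.div_mul_cancel ⟨m', hm'⟩).symm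
      _ ≤ M * y := Nat.mul_le_mul hle (hP p hpP).2
  have hlL : l ≤ X / M := by
    rw [Nat.le_div_iff_mul_le (by omega)]
    calc l * M ≤ l * m := Nat.mul_le_mul_left _ hMm.le
      _ = n := by rw [hl]; ring
      _ ≤ X := hn'.2.1
  refine ⟨p, hpP, m, ?_, l, ?_, hl.symm⟩
  · rw [Ms, mem_filter]
    exact ⟨hmS, ⟨m', hm'⟩, fun q hq => hpmax q hq, hle, hMm⟩
  · rw [Ls, mem_filter]
    exact ⟨dvd_mem hn ⟨m, by rw [hl]; ring⟩ hlL, fun q hq => hpre p hp q hq⟩

lemma decomp_lt {M L p p' m m' l l' : ℕ} (hp' : p'.Prime) (hm : m ∈ Ms P y M p) (hm' : m' ∈ Ms P y M p')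
    (hl' : l' ∈ Ls P L p') (h : m * l = m' * l') (hlt : p < p') : False := by
  rw [Ms, mem_filter] at hm hm'
  rw [Ls, mem_filter] at hl'
  obtain ⟨hmS, hpm, hq, hle, hMm⟩ := hm
  obtain ⟨hmS', hpm', hq', hle', hMm'⟩ := hm'
  obtain ⟨hlS', hr'⟩ := hl'
  have hm0 := (mem_S.1 hmS).1
  have hm0' := (mem_S.1 hmS').1
  have hl0' := (mem_S.1 hlS').1
  have c1 : Nat.Coprime m l' := by
    apply Nat.Coprime.symm
    apply Nat.coprime_of_dvd
    intro k hk h1 h2
    have h3 := hq k (Nat.mem_primeFactors.2 ⟨hk, h2, by omega⟩)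
    have h4 := hr' k (Nat.mem_primeFactors.2 ⟨hk, h1, by omega⟩)
    omega
  have c2 : Nat.Coprime m p' := by
    rw [Nat.coprime_comm, hp'.coprime_iff_not_dvd]
    intro h1
    have := hq p' (Nat.mem_primeFactors.2 ⟨hp', h1, by omega⟩)
    omega
  have h1 : m ∣ m' := c1.dvd_of_dvd_mul_right ⟨l, h.symm⟩
  obtain ⟨t, ht⟩ := hpm'
  have h2 : m ∣ t := by
    rw [ht] at h1
    exact c2.dvd_of_dvd_mul_left h1
  have h3 : m' / p' = t := by rw [ht]; exact Nat.mul_div_cancel_left _ hp'.pos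
  have ht0 : 0 < t := by
    rcases Nat.eq_zero_or_pos t with h4 | h4
    · subst h4; omega
    · exact h4
  have h4 := Nat.le_of_dvd ht0 h2
  omega

lemma decomp_same_aux {M L p m m' l l' : ℕ} (hp : p.Prime) (hm : m ∈ Ms P y M p) (hm' : m' ∈ Ms P y M p)
    (hl : l ∈ Ls P L p) (hl' : l' ∈ Ls P L p) (h : m * l = m' * l')
    (hv : m.factorization p ≤ m'.factorization p) : m = m' := by
  rw [Ms, mem_filter] at hm hm'
  rw [Ls, mem_filter] at hl hl'
  obtain ⟨hmS, hpm, hq, hle, hMm⟩ := hm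
  obtain ⟨hmS', hpm', hq', hle', hMm'⟩ := hm'
  obtain ⟨hlS, hr⟩ := hl
  obtain ⟨hlS', hr'⟩ := hl'
  have hm0 := (mem_S.1 hmS).1
  have hm0' := (mem_S.1 hmS').1
  have hl0 := (mem_S.1 hlS).1
  have hl0' := (mem_S.1 hlS').1
  have hval : ∀ q, q ≠ p → m.factorization q = m'.factorization q := by
    intro q hqp
    by_cases hqpr : q.Prime
    · rcases lt_or_gt_of_ne hqp with hlt | hlt
      · have z1 : l.factorization q = 0 := by
          apply Nat.factorization_eq_zero_of_not_dvd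
          intro hd
          have := hr q (Nat.mem_primeFactors.2 ⟨hqpr, hd, by omega⟩)
          omega
        have z2 : l'.factorization q = 0 := by
          apply Nat.factorization_eq_zero_of_not_dvd
          intro hd
          have := hr' q (Nat.mem_primeFactors.2 ⟨hqpr, hd, by omega⟩)
          omega
        have h1 : (m * l).factorization q = (m' * l').factorization q := by rw [h]
        rw [Nat.factorization_mul (by omega) (by omega), Nat.factorization_mul (by omega) (by omega),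
          Finsupp.add_apply, Finsupp.add_apply, z1, z2] at h1
        simpa using h1
      · rw [Nat.factorization_eq_zero_of_not_dvd, Nat.factorization_eq_zero_of_not_dvd]
        · intro hd
          have := hq' q (Nat.mem_primeFactors.2 ⟨hqpr, hd, by omega⟩)
          omega
        · intro hd
          have := hq q (Nat.mem_primeFactors.2 ⟨hqpr, hd, by omega⟩)
          omega
    · rw [Nat.factorization_eq_zero_of_not_prime _ hqpr, Nat.factorization_eq_zero_of_not_prime _ hqpr]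
  have hdvd : m ∣ m' := by
    rw [← Nat.factorization_le_iff_dvd (by omega) (by omega)]
    intro q
    by_cases hqp : q = p
    · rw [hqp]; exact hv
    · exact (hval q hqp).le
  obtain ⟨t, ht⟩ := hdvd
  by_contra hne
  have ht1 : t ≠ 1 := by
    rintro rfl
    apply hne
    rw [ht, mul_one]
  have ht0 : t ≠ 0 := by rintro rfl; omega
  obtain ⟨r, hr1, hr2⟩ := Nat.exists_prime_and_dvd ht1
  have hrp : r = p := by
    by_contra hrp
    have h1 := hval r hrp
    rw [ht, Nat.factorization_mul (by omega) ht0, Finsupp.add_apply] at h1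
    have h2 : 0 < t.factorization r := hr1.factorization_pos_of_dvd ht0 hr2
    omega
  subst hrp
  obtain ⟨s, hs⟩ := hr2
  have h3 : m' / r = m * s := by
    rw [ht, hs, show m * (r * s) = r * (m * s) by ring]
    exact Nat.mul_div_cancel_left _ hr1.pos
  have hs0 : 1 ≤ s := by
    rcases Nat.eq_zero_or_pos s with h4 | h4
    · subst h4; omega
    · exact h4
  rw [h3] at hle'
  have : m ≤ m * s := Nat.le_mul_of_pos_right _ hs0
  omega

lemma decomp_same {M L p m m' l l' : ℕ} (hp : p.Prime) (hm : m ∈ Ms P y M p) (hm' : m' ∈ Ms P y M p)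
    (hl : l ∈ Ls P L p) (hl' : l' ∈ Ls P L p) (h : m * l = m' * l') : m = m' ∧ l = l' := by
  have h1 : m = m' := by
    rcases le_total (m.factorization p) (m'.factorization p) with hv | hv
    · exact decomp_same_aux hp hm hm' hl hl' h hv
    · exact (decomp_same_aux hp hm' hm hl' hl h.symm hv).symm
  refine ⟨h1, ?_⟩
  rw [h1] at h
  have hm0 : 0 < m' := (mem_S.1 (mem_filter.1 hm').1).1
  exact Nat.eq_of_mul_eq_mul_left hm0 h

/-- the decomposition of sums over the integers composed of the primes of `P` -/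
lemma decomp_sum (hP : ∀ p ∈ P, p.Prime ∧ p ≤ y) (X M : ℕ) (hM : 1 ≤ M) (F : ℕ → ℂ) :
    ∑ n ∈ (S P X).filter (fun n => M < n), F n =
      ∑ p ∈ P, ∑ m ∈ Ms P y M p, ∑ l ∈ (Ls P (X / M) p).filter (fun l => m * l ≤ X), F (m * l) := by
  classical
  rw [sum_congr rfl (fun p _ => (sum_sigma (Ms P y M p)
    (fun m => (Ls P (X / M) p).filter (fun l => m * l ≤ X)) (fun x => F (x.1 * x.2))).symm)]
  rw [← sum_sigma P (fun p => (Ms P y M p).sigma (fun m => (Ls P (X / M) p).filter (fun l => m * l ≤ X)))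
    (fun x => F (x.2.1 * x.2.2))]
  symm
  apply sum_bij (fun x _ => x.2.1 * x.2.2)
  · rintro ⟨p, m, l⟩ hx
    rw [mem_sigma, mem_sigma, mem_filter] at hx
    obtain ⟨hp, hm, hl, hle⟩ := hx
    simp only at hp hm hl hle ⊢
    have hm' := mem_filter.1 (show m ∈ Ms P y M p from hm)
    have hl' := mem_filter.1 (show l ∈ Ls P (X / M) p from hl)
    rw [mem_filter]
    have h1 := mul_mem hm'.1 hl'.1
    have h2 := mem_S.1 h1
    refine ⟨mem_S.2 ⟨h2.1, hle, h2.2.2⟩, ?_⟩
    have h3 := (mem_S.1 hl'.1).1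
    calc M < m := hm'.2.2.2.2
      _ ≤ m * l := Nat.le_mul_of_pos_right _ h3
  · rintro ⟨p, m, l⟩ hx ⟨p', m', l'⟩ hx' h
    rw [mem_sigma, mem_sigma, mem_filter] at hx hx'
    obtain ⟨hp, hm, hl, hle⟩ := hx
    obtain ⟨hp', hm', hl', hle'⟩ := hx'
    simp only at hp hm hl hle hp' hm' hl' hle' h
    have hpp : p = p' := by
      rcases lt_trichotomy p p' with hlt | heq | hlt
      · exact absurd (decomp_lt (hP p' hp').1 hm hm' hl' h hlt) id
      · exact heq
      · exact absurd (decomp_lt (hP p hp).1 hm' hm hl h.symm hlt) id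
    subst hpp
    obtain ⟨h1, h2⟩ := decomp_same (hP p hp).1 hm hm' hl hl' h
    subst h1 h2
    rfl
  · intro n hn
    rw [mem_filter] at hn
    obtain ⟨p, hp, m, hm, l, hl, h⟩ := decomp_exists hP hM hn.1 hn.2
    refine ⟨⟨p, m, l⟩, ?_, h⟩
    rw [mem_sigma, mem_sigma, mem_filter]
    refine ⟨hp, hm, hl, ?_⟩
    show m * l ≤ X
    rw [h]
    exact (mem_S.1 hn.1).2.1
  · rintro ⟨p, m, l⟩ _
    rfl

/-- the number of pairs -/
lemma card_pairs (hP : ∀ p ∈ P, p.Prime ∧ p ≤ y) (X M p : ℕ) (hp : p ∈ P) (hX : 1 ≤ X) :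
    (Ms P y M p).card * (Ls P (X / M) p).card ≤ (y * y + 1) * psi P X := by
  classical
  refine le_trans ?_ (psi_mul_le hP X hX)
  rw [← card_product]
  apply card_le_card_of_injOn (fun x => x.1 * x.2)
  · rintro ⟨m, l⟩ hx
    rw [mem_coe, mem_product] at hx
    have h1 := (mem_filter.1 (show m ∈ Ms P y M p from hx.1)).1
    have h2 := (mem_filter.1 (show l ∈ Ls P (X / M) p from hx.2)).1
    have h3 := mem_S.1 (mul_mem h1 h2)
    show m * l ∈ S P (y * X)
    refine mem_S.2 ⟨h3.1, h3.2.1.trans ?_, h3.2.2⟩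
    calc M * y * (X / M) = y * (X / M * M) := by ring
      _ ≤ y * X := Nat.mul_le_mul_left _ (Nat.div_mul_le_self _ _)
  · rintro ⟨m, l⟩ hx ⟨m', l'⟩ hx' h
    rw [mem_coe, mem_product] at hx hx'
    obtain ⟨h1, h2⟩ := decomp_same (hP p hp).1 hx.1 hx'.1 hx.2 hx'.2 h
    exact Prod.ext h1 h2

open ComplexConjugate in
/-- the bilinear bound -/
lemma bilinear (X M p : ℕ) (θ : ℝ) :
    ‖∑ m ∈ Ms P y M p, ∑ l ∈ (Ls P (X / M) p).filter (fun l => m * l ≤ X), ee ((m * l : ℕ) * θ)‖ ^ 2 ≤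
      (Ms P y M p).card * ∑ l' ∈ Ls P (X / M) p, ∑ l ∈ Ls P (X / M) p,
        KK ((M * y : ℕ) : ℝ) (((l : ℝ) - l') * θ) := by
  classical
  set L := Ls P (X / M) p with hL
  set a : ℕ → ℂ := fun m => ∑ l ∈ L.filter (fun l => m * l ≤ X), ee ((m * l : ℕ) * θ) with ha
  have h1 : ‖∑ m ∈ Ms P y M p, a m‖ ^ 2 ≤ (Ms P y M p).card * ∑ m ∈ Ms P y M p, ‖a m‖ ^ 2 := by
    calc ‖∑ m ∈ Ms P y M p, a m‖ ^ 2 ≤ (∑ m ∈ Ms P y M p, ‖a m‖) ^ 2 :=
          pow_le_pow_left₀ (norm_nonneg _) (norm_sum_le _ _) 2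
      _ ≤ _ := sq_sum_le_card_mul_sum_sq
  refine h1.trans (mul_le_mul_of_nonneg_left ?_ (Nat.cast_nonneg _))
  have hsub : Ms P y M p ⊆ Ico (M + 1) (M * y + 1) := by
    intro m hm
    have hm' := mem_filter.1 (show m ∈ Ms P y M p from hm)
    have := (mem_S.1 hm'.1).2.1
    rw [mem_Ico]
    omega
  have h2 : ∑ m ∈ Ms P y M p, ‖a m‖ ^ 2 ≤ ∑ m ∈ Ico (M + 1) (M * y + 1), ‖a m‖ ^ 2 :=
    sum_le_sum_of_subset_of_nonneg hsub fun _ _ _ => by positivity
  refine h2.trans ?_
  have h3 : ((∑ m ∈ Ico (M + 1) (M * y + 1), ‖a m‖ ^ 2 : ℝ) : ℂ) =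
      ∑ l' ∈ L, ∑ l ∈ L, ∑ m ∈ (Ico (M + 1) (M * y + 1)).filter (fun m => m * l ≤ X ∧ m * l' ≤ X),
        ee (m * (((l : ℝ) - l') * θ)) := by
    have e1 : ∀ m, ((‖a m‖ ^ 2 : ℝ) : ℂ) = ∑ l' ∈ L, ∑ l ∈ L,
        if m * l ≤ X ∧ m * l' ≤ X then ee (m * (((l : ℝ) - l') * θ)) else 0 := by
      intro m
      rw [Complex.ofReal_pow, ← Complex.mul_conj', ha]
      simp only
      rw [map_sum, sum_mul_sum, sum_comm, sum_filter]
      apply sum_congr rfl
      intro l' _
      by_cases hl' : m * l' ≤ X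
      · rw [if_pos hl', sum_filter]
        apply sum_congr rfl
        intro l _
        by_cases hl : m * l ≤ X
        · rw [if_pos hl, if_pos ⟨hl, hl'⟩]
          have e2 : conj (ee ((m * l' : ℕ) * θ)) = ee (-((m * l' : ℕ) * θ)) := by
            rw [ee_eq, ee_eq, ← Complex.exp_conj, map_mul, Complex.conj_ofReal, Complex.conj_I]
            congr 1
            push_cast
            ring
          rw [e2, ← ee_add]
          congr 1
          push_cast
          ring
        · rw [if_neg hl, if_neg (by tauto)]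
      · rw [if_neg hl']
        symm
        apply sum_eq_zero
        intro l _
        rw [if_neg (by tauto)]
    rw [Complex.ofReal_sum, sum_congr rfl (fun m _ => e1 m), sum_comm]
    apply sum_congr rfl
    intro l' _
    rw [sum_comm]
    apply sum_congr rfl
    intro l _
    rw [sum_filter]
  have h4 : ∑ m ∈ Ico (M + 1) (M * y + 1), ‖a m‖ ^ 2 =
      ‖∑ l' ∈ L, ∑ l ∈ L, ∑ m ∈ (Ico (M + 1) (M * y + 1)).filter (fun m => m * l ≤ X ∧ m * l' ≤ X),
        ee (m * (((l : ℝ) - l') * θ))‖ := by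
    rw [← h3, Complex.norm_real, Real.norm_eq_abs, abs_of_nonneg (by positivity)]
  rw [h4]
  refine (norm_sum_le _ _).trans (sum_le_sum fun l' hl' => ?_)
  refine (norm_sum_le _ _).trans (sum_le_sum fun l hl => ?_)
  have hl1 : 1 ≤ l := (mem_S.1 (mem_filter.1 (show l ∈ Ls P (X / M) p from hl)).1).1
  have hl1' : 1 ≤ l' := (mem_S.1 (mem_filter.1 (show l' ∈ Ls P (X / M) p from hl')).1).1
  set b := max (M + 1) (min (M * y) (min (X / l) (X / l')) + 1) with hb
  have h5 : (Ico (M + 1) (M * y + 1)).filter (fun m => m * l ≤ X ∧ m * l' ≤ X) = Ico (M + 1) b := by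
    ext m
    rw [mem_filter, mem_Ico, mem_Ico, ← Nat.le_div_iff_mul_le (by omega), ← Nat.le_div_iff_mul_le (by omega)]
    omega
  rw [h5]
  apply geo_bound _ _ (le_max_left _ _)
  have h6 : b ≤ M + 1 + M * y := by
    rw [hb]
    apply max_le (by omega)
    have := min_le_left (M * y) (min (X / l) (X / l'))
    omega
  have h7 : (b : ℝ) ≤ ((M + 1 : ℕ) : ℝ) + ((M * y : ℕ) : ℝ) := by exact_mod_cast h6
  linarith

end Pool.Agent.K7.H49.SM
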