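import Mathlib
import Pool.Agent.K7.H49.SM.Decomp

/-! Exponential sums over the integers composed of given primes: the sum over the differences
(helper49). -/

set_option autoImplicit false

namespace Pool.Agent.K7.H49.SM

open Finset
open Pool.Agent.H807R2.Dav

variable {P : Finset ℕ} {y : ℕ}

/-- the fractional part of the main term -/
lemma dd_frac {q : ℕ} (hq : 1 ≤ q) (b : ℤ) (θ : ℝ) (n : ℤ) :
    dd ((n : ℝ) * θ) = dd (((b * n % q : ℤ) : ℝ) / q + n * (θ - b / q)) := by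
  have hq0 : (q : ℝ) ≠ 0 := by positivity
  have h1 : (n : ℝ) * θ = ((((b * n % q : ℤ) : ℝ) / q + n * (θ - b / q))) + ((b * n / q : ℤ) : ℝ) := by
    have h2 : ((b * n : ℤ) : ℝ) = q * ((b * n / q : ℤ) : ℝ) + ((b * n % q : ℤ) : ℝ) := by
      have := Int.mul_ediv_add_emod (b * n) q
      exact_mod_cast this.symm
    push_cast at h2
    field_simp
    linarith
  rw [h1, dd_add_int]

/-- the members of a residue class of `b (l - l')` lie in one residue class -/
lemma same_class {q : ℕ} {b : ℤ} (hcop : IsCoprime b (q : ℤ)) {l1 l2 l' : ℕ} {r : ℤ}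
    (h1 : b * ((l1 : ℤ) - l') % q = r) (h2 : b * ((l2 : ℤ) - l') % q = r) : l1 % q = l2 % q := by
  have h3 : (q : ℤ) ∣ b * ((l1 : ℤ) - l2) := by
    have h4 : b * ((l2 : ℤ) - l') ≡ b * ((l1 : ℤ) - l') [ZMOD q] := by
      unfold Int.ModEq
      rw [h1, h2]
    have h5 := h4.dvd
    have e : b * ((l1 : ℤ) - l') - b * ((l2 : ℤ) - l') = b * ((l1 : ℤ) - l2) := by ring
    rwa [e] at h5
  have h6 : (q : ℤ) ∣ (l1 : ℤ) - l2 := hcop.symm.dvd_of_dvd_mul_left h3
  have h7 : (l2 : ℤ) ≡ (l1 : ℤ) [ZMOD q] := Int.modEq_iff_dvd.2 h6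
  unfold Int.ModEq at h7
  exact_mod_cast h7.symm

/-- one residue class: the terms which are not near an integer -/
lemma nonres_term {q : ℕ} (hq : 1 ≤ q) (b : ℤ) (θ : ℝ) {L : ℕ} (hδ : 4 * q * |θ - b / q| * L ≤ 1)
    {B : ℝ} (hB : 0 ≤ B) {l l' : ℕ} (hl : 1 ≤ l ∧ l ≤ L) (hl' : 1 ≤ l' ∧ l' ≤ L) {r : ℕ} (hr : 1 ≤ r) (hrq : r < q)
    (h : b * ((l : ℤ) - l') % q = r) :
    KK B (((l : ℝ) - l') * θ) ≤ 3 * q / 2 * (1 / r + 1 / ((q : ℝ) - r)) := by
  have hq0 : (0 : ℝ) < q := by exact_mod_cast hq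
  have hr0 : (1 : ℝ) ≤ r := by exact_mod_cast hr
  have hrq' : (r : ℝ) + 1 ≤ q := by exact_mod_cast hrq
  set δ := θ - b / q with hδd
  have e1 := dd_frac hq b θ ((l : ℤ) - l')
  rw [h] at e1
  push_cast at e1
  have h1 := dd_add_ge ((r : ℝ) / q) (((l : ℝ) - l') * δ)
  have h2 : 4 * min ((r : ℝ) / q) (1 - (r : ℝ) / q) ≤ dd ((r : ℝ) / q) :=
    dd_ge (by positivity) (by rw [div_le_one hq0]; linarith)
  have h3 : |((l : ℝ) - l') * δ| ≤ L * |δ| := by
    rw [abs_mul]
    apply mul_le_mul_of_nonneg_right _ (abs_nonneg _)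
    have a1 : (l : ℝ) ≤ L := by exact_mod_cast hl.2
    have a2 : (l' : ℝ) ≤ L := by exact_mod_cast hl'.2
    have a3 : (1 : ℝ) ≤ l := by exact_mod_cast hl.1
    have a4 : (1 : ℝ) ≤ l' := by exact_mod_cast hl'.1
    rw [abs_le]
    constructor <;> linarith
  have h4 : L * |δ| ≤ 1 / (4 * q) := by
    rw [le_div_iff₀ (by positivity)]
    linarith
  have h5 : 2 * Real.pi * |((l : ℝ) - l') * δ| ≤ 2 / q := by
    calc 2 * Real.pi * |((l : ℝ) - l') * δ| ≤ 2 * 4 * (1 / (4 * q)) := by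
          apply mul_le_mul _ (h3.trans h4) (abs_nonneg _) (by norm_num)
          linarith [Real.pi_le_four]
      _ = 2 / q := by field_simp
  -- the minimum
  set m : ℝ := min ((r : ℝ) / q) (1 - (r : ℝ) / q) with hm
  have hm1 : 1 / (q : ℝ) ≤ m := by
    apply le_min
    · gcongr
    · rw [le_sub_iff_add_le, ← add_div, div_le_one hq0]
      linarith
  have hm0 : 0 < m := lt_of_lt_of_le (by positivity) hm1
  have h6 : 2 * m ≤ dd (((l : ℝ) - l') * θ) := by
    rw [e1]
    have : 2 / (q : ℝ) = 2 * (1 / q) := by ring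
    linarith
  have h7 := KK_le' hB (by positivity : 0 < 2 * m) h6
  refine h7.trans ?_
  have hqr : (0 : ℝ) < q - r := by linarith
  have hr00 : (0 : ℝ) < r := by linarith
  have p1 : 0 < 1 / (r : ℝ) := by positivity
  have p2 : 0 < 1 / ((q : ℝ) - r) := by positivity
  rcases min_choice ((r : ℝ) / q) (1 - (r : ℝ) / q) with hc | hc
  · rw [hm, hc]
    calc 3 / (2 * ((r : ℝ) / q)) = 3 * q / 2 * (1 / r) := by field_simp
      _ ≤ _ := by
        apply mul_le_mul_of_nonneg_left _ (by positivity)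
        linarith
  · rw [hm, hc]
    calc 3 / (2 * (1 - (r : ℝ) / q)) = 3 * q / 2 * (1 / ((q : ℝ) - r)) := by
          have : 1 - (r : ℝ) / q = (q - r) / q := by field_simp
          rw [this]
          field_simp
      _ ≤ _ := by
        apply mul_le_mul_of_nonneg_left _ (by positivity)
        linarith

/-- the terms in the other residue classes -/
lemma nonres (hP : ∀ p ∈ P, p.Prime ∧ p ≤ y) {q : ℕ} (hq : 1 ≤ q) {b : ℤ} (hcop : IsCoprime b (q : ℤ))
    (θ : ℝ) {L : ℕ} (hδ : 4 * q * |θ - b / q| * L ≤ 1) {B : ℝ} (hB : 0 ≤ B) {l' : ℕ} (hl' : 1 ≤ l' ∧ l' ≤ L) :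
    ∑ l ∈ (S P L).filter (fun l : ℕ => b * ((l : ℤ) - l') % q ≠ 0), KK B (((l : ℝ) - l') * θ) ≤
      3 * q * (1 + Real.log q) * ((y + 3) * psi P (max 1 (L / q))) := by
  classical
  set C1 : ℝ := (y + 3) * psi P (max 1 (L / q)) with hC1
  have hC0 : 0 ≤ C1 := by rw [hC1]; positivity
  have hq0 : (0 : ℝ) < q := by exact_mod_cast hq
  set T := (S P L).filter (fun l : ℕ => b * ((l : ℤ) - l') % q ≠ 0) with hT
  have hmaps : ∀ l ∈ T, (b * ((l : ℤ) - l') % q).toNat ∈ Ico 1 q := by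
    intro l hl
    rw [hT, mem_filter] at hl
    have h1 : 0 ≤ b * ((l : ℤ) - l') % q := Int.emod_nonneg _ (by omega)
    have h2 : b * ((l : ℤ) - l') % q < q := Int.emod_lt_of_pos _ (by omega)
    rw [mem_Ico]
    omega
  rw [← sum_fiberwise_of_maps_to hmaps]
  have h1 : ∀ r ∈ Ico 1 q, ∑ l ∈ T.filter (fun l : ℕ => (b * ((l : ℤ) - l') % q).toNat = r),
      KK B (((l : ℝ) - l') * θ) ≤ C1 * (3 * q / 2 * (1 / r + 1 / ((q : ℝ) - r))) := by
    intro r hr
    rw [mem_Ico] at hr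
    have hr0 : (1 : ℝ) ≤ r := by exact_mod_cast hr.1
    have hrq' : (r : ℝ) + 1 ≤ q := by exact_mod_cast hr.2
    have hpos : 0 ≤ 3 * (q : ℝ) / 2 * (1 / r + 1 / ((q : ℝ) - r)) := by
      have : (0 : ℝ) < q - r := by linarith
      positivity
    set T' := T.filter (fun l : ℕ => (b * ((l : ℤ) - l') % q).toNat = r) with hT'
    have hmem : ∀ l ∈ T', l ∈ S P L ∧ b * ((l : ℤ) - l') % q = r := by
      intro l hl
      rw [hT', mem_filter, hT, mem_filter] at hl
      have h1 : 0 ≤ b * ((l : ℤ) - l') % q := Int.emod_nonneg _ (by omega)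
      exact ⟨hl.1.1, by omega⟩
    have hcard : (T'.card : ℝ) ≤ C1 := by
      rcases T'.eq_empty_or_nonempty with h0 | ⟨l0, hl0⟩
      · rw [h0]; simpa using hC0
      have := class_count hP L 0 L q (l0 % q) hq T' (by
        intro l hl
        have h2 := mem_S.1 (hmem l hl).1
        exact ⟨(hmem l hl).1, h2.1, by omega, same_class hcop (hmem l hl).2 (hmem l0 hl0).2⟩)
      rw [hC1]
      exact_mod_cast this
    calc ∑ l ∈ T', KK B (((l : ℝ) - l') * θ) ≤ ∑ _l ∈ T', 3 * (q : ℝ) / 2 * (1 / r + 1 / ((q : ℝ) - r)) := by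
          apply sum_le_sum
          intro l hl
          have h2 := mem_S.1 (hmem l hl).1
          exact nonres_term hq b θ hδ hB ⟨h2.1, h2.2.1⟩ hl' hr.1 hr.2 (hmem l hl).2
      _ = T'.card * (3 * (q : ℝ) / 2 * (1 / r + 1 / ((q : ℝ) - r))) := by rw [sum_const, nsmul_eq_mul]
      _ ≤ _ := mul_le_mul_of_nonneg_right hcard hpos
  refine (sum_le_sum h1).trans ?_
  rw [← mul_sum, ← mul_sum, sum_add_distrib]
  have h2 : ∑ r ∈ Ico 1 q, (1 / (r : ℝ)) ≤ 1 + Real.log q := by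
    refine le_trans ?_ (sum_inv_range q)
    apply sum_le_sum_of_subset_of_nonneg
    · intro r hr
      rw [mem_Ico] at hr
      exact mem_range.2 hr.2
    · intro r _ _; positivity
  have h3 : ∑ r ∈ Ico 1 q, (1 / ((q : ℝ) - r)) ≤ 1 + Real.log q := by
    refine le_trans ?_ (sum_inv_range' q)
    apply sum_le_sum_of_subset_of_nonneg
    · intro r hr
      rw [mem_Ico] at hr
      exact mem_range.2 hr.2
    · intro r hr _
      have : (r : ℝ) < q := by exact_mod_cast mem_range.1 hr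
      have : (0 : ℝ) < q - r := by linarith
      positivity
  calc C1 * (3 * q / 2 * (∑ r ∈ Ico 1 q, (1 / (r : ℝ)) + ∑ r ∈ Ico 1 q, (1 / ((q : ℝ) - r)))) ≤
        C1 * (3 * q / 2 * ((1 + Real.log q) + (1 + Real.log q))) := by gcongr
    _ = 3 * q * (1 + Real.log q) * C1 := by ring

/-- the terms in the residue class of `l'` -/
lemma res1 (hP : ∀ p ∈ P, p.Prime ∧ p ≤ y) {q : ℕ} (hq : 1 ≤ q) {b : ℤ} (hcop : IsCoprime b (q : ℤ))
    (θ : ℝ) {L : ℕ} {B : ℝ} (hB : 0 ≤ B) {l' : ℕ} :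
    ∑ l ∈ (S P L).filter (fun l : ℕ => b * ((l : ℤ) - l') % q = 0), KK B (((l : ℝ) - l') * θ) ≤
      3 * B * ((y + 3) * psi P (max 1 (L / q))) := by
  classical
  set T := (S P L).filter (fun l : ℕ => b * ((l : ℤ) - l') % q = 0) with hT
  have hcard : (T.card : ℝ) ≤ (y + 3) * psi P (max 1 (L / q)) := by
    rcases T.eq_empty_or_nonempty with h0 | ⟨l0, hl0⟩
    · rw [h0]; simp; positivity
    have := class_count hP L 0 L q (l0 % q) hq T (by
      intro l hl
      have h2 := mem_filter.1 hl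
      have h3 := mem_S.1 h2.1
      exact ⟨h2.1, h3.1, by omega, same_class hcop (r := 0) (by exact_mod_cast h2.2)
        (by exact_mod_cast (mem_filter.1 hl0).2)⟩)
    exact_mod_cast this
  calc ∑ l ∈ T, KK B (((l : ℝ) - l') * θ) ≤ ∑ _l ∈ T, 3 * B := sum_le_sum fun l _ => KK_le hB _
    _ = 3 * B * T.card := by rw [sum_const, nsmul_eq_mul]; ring
    _ ≤ _ := mul_le_mul_of_nonneg_left hcard (by positivity)

/-- one dyadic piece -/
lemma res_count (hP : ∀ p ∈ P, p.Prime ∧ p ≤ y) {q : ℕ} (hq : 1 ≤ q) {b : ℤ} (hcop : IsCoprime b (q : ℤ))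
    {L : ℕ} {l' : ℕ} (hl' : 1 ≤ l' ∧ l' ≤ L) (H : ℕ) (hH : 1 ≤ H) :
    ((((S P L).filter (fun l : ℕ => b * ((l : ℤ) - l') % q = 0)).filter
      (fun l : ℕ => |(l : ℝ) - l'| ≤ H)).card : ℝ) ≤ (y + 3) * psi P (max 1 (min (3 * H) L / q)) := by
  classical
  set T := ((S P L).filter (fun l : ℕ => b * ((l : ℤ) - l') % q = 0)).filter (fun l : ℕ => |(l : ℝ) - l'| ≤ H) with hT
  rcases T.eq_empty_or_nonempty with h0 | ⟨l0, hl0⟩
  · rw [h0]; simp; positivity
  have hmem : ∀ l ∈ T, l ∈ S P L ∧ b * ((l : ℤ) - l') % q = 0 ∧ l ≤ l' + H ∧ l' ≤ l + H := by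
    intro l hl
    rw [hT, mem_filter, mem_filter] at hl
    obtain ⟨⟨h1, h2⟩, h3⟩ := hl
    rw [abs_le] at h3
    refine ⟨h1, h2, ?_, ?_⟩
    · have : (l : ℝ) ≤ ((l' + H : ℕ) : ℝ) := by push_cast; linarith [h3.2]
      exact_mod_cast this
    · have : (l' : ℝ) ≤ ((l + H : ℕ) : ℝ) := by push_cast; linarith [h3.1]
      exact_mod_cast this
  rcases le_total (3 * H) L with h | h
  · rw [min_eq_left h]
    have := class_count hP L (l' - H - 1) (3 * H) q (l0 % q) hq T (by
      intro l hl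
      obtain ⟨h1, h2, h3, h4⟩ := hmem l hl
      have h5 := mem_S.1 h1
      exact ⟨h1, by omega, by omega, same_class hcop (r := 0) (by exact_mod_cast h2)
        (by exact_mod_cast (hmem l0 hl0).2.1)⟩)
    exact_mod_cast this
  · rw [min_eq_right h]
    have := class_count hP L 0 L q (l0 % q) hq T (by
      intro l hl
      obtain ⟨h1, h2, h3, h4⟩ := hmem l hl
      have h5 := mem_S.1 h1
      exact ⟨h1, h5.1, by omega, same_class hcop (r := 0) (by exact_mod_cast h2)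
        (by exact_mod_cast (hmem l0 hl0).2.1)⟩)
    exact_mod_cast this

/-- the terms in the residue class of `l'`, dyadic decomposition -/
lemma res2 (hP : ∀ p ∈ P, p.Prime ∧ p ≤ y) {q : ℕ} (hq : 1 ≤ q) {b : ℤ} (hcop : IsCoprime b (q : ℤ))
    (θ : ℝ) {L : ℕ} (hδ : 4 * q * |θ - b / q| * L ≤ 1) {B : ℝ} (hB : 0 ≤ B) {l' : ℕ} (hl' : 1 ≤ l' ∧ l' ≤ L)
    (H J : ℕ) (hH : 1 ≤ H) (hH2 : 1 ≤ 4 * B * |θ - b / q| * H) (hJ : L ≤ 2 ^ J) :
    ∑ l ∈ (S P L).filter (fun l : ℕ => b * ((l : ℤ) - l') % q = 0), KK B (((l : ℝ) - l') * θ) ≤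
      3 * B * ∑ j ∈ range (J + 1), (1 / 2 : ℝ) ^ j *
        ((y + 3) * psi P (max 1 (min (3 * (2 ^ (j + 1) * H)) L / q))) := by
  classical
  set δ := θ - b / q with hδd
  set T := (S P L).filter (fun l : ℕ => b * ((l : ℤ) - l') % q = 0) with hT
  have hq0 : (0 : ℝ) < q := by exact_mod_cast hq
  have hq1 : (1 : ℝ) ≤ q := by exact_mod_cast hq
  have hterm : ∀ l ∈ T, KK B (((l : ℝ) - l') * θ) ≤
      ∑ j ∈ range (J + 1), if |(l : ℝ) - l'| ≤ (2 ^ (j + 1) * H : ℕ) then 3 * B * (1 / 2 : ℝ) ^ j else 0 := by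
    intro l hl
    rw [hT, mem_filter] at hl
    have hlS := mem_S.1 hl.1
    set t := |(l : ℝ) - l'| with ht
    have ht0 : 0 ≤ t := abs_nonneg _
    have htL : t ≤ L := by
      have a1 : (l : ℝ) ≤ L := by exact_mod_cast hlS.2.1
      have a2 : (l' : ℝ) ≤ L := by exact_mod_cast hl'.2
      have a3 : (1 : ℝ) ≤ l := by exact_mod_cast hlS.1
      have a4 : (1 : ℝ) ≤ l' := by exact_mod_cast hl'.1
      rw [ht, abs_le]
      constructor <;> linarith
    have hδ0 : 0 ≤ |δ| := abs_nonneg _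
    -- the lower bound for dd
    have hdd : 4 * (t * |δ|) ≤ dd (((l : ℝ) - l') * θ) := by
      have e1 := dd_frac hq b θ ((l : ℤ) - l')
      rw [hl.2] at e1
      push_cast at e1
      rw [zero_div, zero_add] at e1
      rw [e1]
      have e2 : dd (((l : ℝ) - l') * (θ - b / q)) = dd (t * |δ|) := by
        rw [ht, ← abs_mul, hδd]
        rcases abs_choice (((l : ℝ) - l') * (θ - b / q)) with h | h
        · rw [h]
        · rw [h, dd_neg]
      rw [e2]
      have hts : t * |δ| ≤ 1 / 2 := by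
        have h1 : t * |δ| ≤ L * |δ| := mul_le_mul_of_nonneg_right htL hδ0
        have h2 : 4 * (L * |δ|) ≤ 4 * q * |δ| * L := by
          have : 0 ≤ L * |δ| := by positivity
          nlinarith
        linarith
      have h3 := dd_ge (t := t * |δ|) (by positivity) (by linarith)
      have h4 : min (t * |δ|) (1 - t * |δ|) = t * |δ| := min_eq_left (by linarith)
      rw [h4] at h3
      exact h3
    -- find the dyadic piece
    by_cases hsmall : t ≤ (2 * H : ℕ)
    · calc KK B (((l : ℝ) - l') * θ) ≤ 3 * B := KK_le hB _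
        _ = (if t ≤ (2 ^ (0 + 1) * H : ℕ) then 3 * B * (1 / 2 : ℝ) ^ 0 else 0) := by
            rw [if_pos (by simpa using hsmall)]; ring
        _ ≤ _ := by
            apply single_le_sum (f := fun j : ℕ => if t ≤ (2 ^ (j + 1) * H : ℕ) then 3 * B * (1 / 2 : ℝ) ^ j else 0)
              (fun j _ => by positivity) (mem_range.2 (Nat.succ_pos J))
    · push Not at hsmall
      -- the largest `j` with `2 ^ j * H < t`
      have hex : ∃ j, t ≤ (2 ^ (j + 1) * H : ℕ) := by
        refine ⟨J, htL.trans ?_⟩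
        have : L ≤ 2 ^ (J + 1) * H := by
          calc L ≤ 2 ^ J := hJ
            _ ≤ 2 ^ (J + 1) * H := by
              rw [pow_succ, mul_assoc]
              exact Nat.le_mul_of_pos_right _ (by omega)
        exact_mod_cast this
      set j := Nat.find hex with hj
      have hj1 : t ≤ (2 ^ (j + 1) * H : ℕ) := Nat.find_spec hex
      have hj0 : j ≠ 0 := by
        intro h0
        rw [h0] at hj1
        simp only [zero_add, pow_one] at hj1
        linarith
      have hj2 : ((2 ^ j * H : ℕ) : ℝ) < t := by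
        have := Nat.find_min hex (m := j - 1) (by omega)
        rw [Nat.sub_add_cancel (by omega)] at this
        exact not_le.1 this
      have hjJ : j ≤ J := by
        by_contra hcon
        push Not at hcon
        have h1 : L ≤ 2 ^ j * H := by
          calc L ≤ 2 ^ J := hJ
            _ ≤ 2 ^ j := Nat.pow_le_pow_right (by norm_num) hcon.le
            _ ≤ 2 ^ j * H := Nat.le_mul_of_pos_right _ (by omega)
        have h2 : (L : ℝ) ≤ ((2 ^ j * H : ℕ) : ℝ) := by exact_mod_cast h1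
        linarith
      have hKK : KK B (((l : ℝ) - l') * θ) ≤ 3 * B * (1 / 2 : ℝ) ^ j := by
        unfold KK
        have hd0 := dd_nonneg (((l : ℝ) - l') * θ)
        rw [div_le_iff₀ (by positivity)]
        have h2j : (0 : ℝ) < 2 ^ j := by positivity
        have h1 : (2 : ℝ) ^ j ≤ B * dd (((l : ℝ) - l') * θ) := by
          calc (2 : ℝ) ^ j = 2 ^ j * 1 := by ring
            _ ≤ 2 ^ j * (4 * B * |δ| * H) := mul_le_mul_of_nonneg_left hH2 h2j.le
            _ = 4 * B * |δ| * ((2 ^ j * H : ℕ) : ℝ) := by push_cast; ring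
            _ ≤ 4 * B * |δ| * t := mul_le_mul_of_nonneg_left hj2.le (by positivity)
            _ = B * (4 * (t * |δ|)) := by ring
            _ ≤ _ := mul_le_mul_of_nonneg_left hdd hB
        have h3 : (1 / 2 : ℝ) ^ j * 2 ^ j = 1 := by
          rw [← mul_pow]; norm_num
        calc 3 * B = 3 * B * ((1 / 2 : ℝ) ^ j * 2 ^ j) := by rw [h3, mul_one]
          _ ≤ 3 * B * ((1 / 2 : ℝ) ^ j * (1 + B * dd (((l : ℝ) - l') * θ))) := by
              apply mul_le_mul_of_nonneg_left _ (by positivity)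
              apply mul_le_mul_of_nonneg_left _ (by positivity)
              linarith
          _ = _ := by ring
      calc KK B (((l : ℝ) - l') * θ) ≤ 3 * B * (1 / 2 : ℝ) ^ j := hKK
        _ = (if t ≤ (2 ^ (j + 1) * H : ℕ) then 3 * B * (1 / 2 : ℝ) ^ j else 0) := by rw [if_pos hj1]
        _ ≤ _ := by
            apply single_le_sum (f := fun j : ℕ => if t ≤ (2 ^ (j + 1) * H : ℕ) then 3 * B * (1 / 2 : ℝ) ^ j else 0)
              (fun j _ => by positivity) (mem_range.2 (Nat.lt_succ_iff.2 hjJ))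
  refine (sum_le_sum hterm).trans ?_
  rw [sum_comm, mul_sum]
  apply sum_le_sum
  intro j _
  rw [← sum_filter, sum_const, nsmul_eq_mul]
  have h1 := res_count hP hq hcop hl' (2 ^ (j + 1) * H) (by
    have : 1 ≤ 2 ^ (j + 1) := Nat.one_le_pow _ _ (by norm_num)
    nlinarith)
  calc ((T.filter (fun l : ℕ => |(l : ℝ) - l'| ≤ (2 ^ (j + 1) * H : ℕ))).card : ℝ) * (3 * B * (1 / 2 : ℝ) ^ j) ≤
        ((y + 3) * psi P (max 1 (min (3 * (2 ^ (j + 1) * H)) L / q))) * (3 * B * (1 / 2 : ℝ) ^ j) :=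
        mul_le_mul_of_nonneg_right h1 (by positivity)
    _ = _ := by ring

end Pool.Agent.K7.H49.SM
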