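import Mathlib
import Pool.Agent.K7.H49.SM.ClassSum

/-! Exponential sums over the integers composed of given primes: the bound at all frequencies
(helper49). -/

set_option autoImplicit false

namespace Pool.Agent.K7.H49.SM

open Finset
open Pool.Agent.H807R2.Dav

variable {P : Finset ℕ} {y : ℕ}

/-- regularity of the counting function, with the exponent `α`, up to `X` -/
def Reg (P : Finset ℕ) (y X : ℕ) (α : ℝ) : Prop :=
  ∀ N D : ℕ, 1 ≤ D → N ≤ X → (psi P (N / D) : ℝ) * (D : ℝ) ^ α ≤ y * psi P N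

lemma psi_small {X : ℕ} {α : ℝ} (hα0 : 0 ≤ α) (hR : Reg P y X α) {N W : ℕ} (hW : 1 ≤ W) (hWN : W ≤ N)
    (hN : N ≤ X) : (psi P W : ℝ) ≤ y * psi P N * (2 * W / N : ℝ) ^ α := by
  have hD : 1 ≤ N / W := (Nat.one_le_div_iff (by omega)).2 hWN
  have h1 := hR N (N / W) hD hN
  have h2 : W ≤ N / (N / W) := by
    rw [Nat.le_div_iff_mul_le (by omega)]
    exact Nat.mul_div_le N W
  have h3 : (psi P W : ℝ) ≤ psi P (N / (N / W)) := by exact_mod_cast psi_mono h2
  have hW0 : (0 : ℝ) < W := by exact_mod_cast hW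
  have hN0 : (0 : ℝ) < N := by exact_mod_cast (by omega : 0 < N)
  have hD0 : (1 : ℝ) ≤ ((N / W : ℕ) : ℝ) := by exact_mod_cast hD
  have h4 : (N : ℝ) / (2 * W) ≤ ((N / W : ℕ) : ℝ) := by
    rw [div_le_iff₀ (by positivity)]
    have h5 : N < (N / W + 1) * W := by
      rw [← Nat.div_lt_iff_lt_mul (by omega)]
      omega
    have h6 : (N : ℝ) < (((N / W : ℕ) : ℝ) + 1) * W := by exact_mod_cast h5
    nlinarith
  have h7 : ((N : ℝ) / (2 * W)) ^ α ≤ ((N / W : ℕ) : ℝ) ^ α :=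
    Real.rpow_le_rpow (by positivity) h4 hα0
  have h8 : (2 * W / N : ℝ) ^ α = 1 / ((N : ℝ) / (2 * W)) ^ α := by
    rw [one_div, ← Real.inv_rpow (by positivity)]
    congr 1
    rw [inv_div]
  rw [h8, mul_one_div, le_div_iff₀ (by positivity)]
  calc (psi P W : ℝ) * ((N : ℝ) / (2 * W)) ^ α ≤ psi P (N / (N / W)) * ((N / W : ℕ) : ℝ) ^ α := by
        gcongr
    _ ≤ _ := h1

/-- the bound for a number of members of a class -/
lemma psi_cls {X : ℕ} {α : ℝ} (hα0 : 0 ≤ α) (hR : Reg P y X α) {L q H M : ℕ} (hL : 1 ≤ L)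
    (hLX : L ≤ X) (hHL : H ≤ L) {c : ℝ} (_hM : 1 ≤ M)
    (hc : 2 * (1 + (H : ℝ) / q) / L ≤ c / M) :
    (psi P (max 1 (H / q)) : ℝ) ≤ y * psi P L * (c / M) ^ α := by
  have hW : 1 ≤ max 1 (H / q) := le_max_left _ _
  have hWL : max 1 (H / q) ≤ L := max_le hL ((Nat.div_le_self _ _).trans hHL)
  refine (psi_small hα0 hR hW hWL hLX).trans ?_
  apply mul_le_mul_of_nonneg_left _ (by positivity)
  apply Real.rpow_le_rpow (by positivity) _ hα0
  refine le_trans ?_ hc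
  have hL0 : (0 : ℝ) < L := by exact_mod_cast hL
  gcongr
  have h1 : max 1 (H / q) ≤ 1 + H / q := max_le (Nat.le_add_right _ _) (Nat.le_add_left _ _)
  calc ((max 1 (H / q) : ℕ) : ℝ) ≤ ((1 + H / q : ℕ) : ℝ) := by exact_mod_cast h1
    _ ≤ 1 + (H : ℝ) / q := by
        push_cast
        have := Nat.cast_div_le (α := ℝ) (m := H) (n := q)
        linarith

lemma rpow_c {α c M : ℝ} (_hα0 : 0 ≤ α) (hα1 : α ≤ 1) (hc : 1 ≤ c) (hM : 0 < M) :
    (c / M) ^ α ≤ c * M ^ (-α) := by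
  rw [div_eq_mul_inv, Real.mul_rpow (by linarith) (by positivity), Real.inv_rpow hM.le, ← Real.rpow_neg hM.le]
  apply mul_le_mul_of_nonneg_right _ (by positivity)
  calc c ^ α ≤ c ^ (1 : ℝ) := Real.rpow_le_rpow_of_exponent_le hc hα1
    _ = c := Real.rpow_one c

lemma hHq_aux {B δ q L M X H : ℝ} (hB1 : 0 < B) (hδpos : 0 < δ) (hq1r : 1 ≤ q) (hL0 : 0 < L) (hM0 : 0 < M)
    (hBM : M ≤ B) (hXL : X ≤ 2 * (L * M)) (hM : M ≤ 8 * (q * δ * X)) (hHhi : H ≤ 1 / (4 * B * δ) + 1)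
    (hinvL : 1 / L ≤ 128 / M) : H / (q * L) ≤ 160 / M := by
  have hq0 : 0 < q := by linarith
  have h6 : H / (q * L) ≤ (1 / (4 * B * δ) + 1) / (q * L) := by gcongr
  have h7 : (1 / (4 * B * δ) + 1) / (q * L) = 1 / (4 * B * (δ * q * L)) + 1 / (q * L) := by
    field_simp
  have h8 : 1 / (4 * B * (δ * q * L)) ≤ 4 / M := by
    rw [div_le_div_iff₀ (by positivity) hM0]
    have h9 : q * δ * X ≤ q * δ * (2 * (L * M)) := by gcongr
    have h10 : M ≤ 16 * (q * δ * L) * M := by linarith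
    have h11 : 16 * (q * δ * L) * M ≤ 16 * (q * δ * L) * B := by gcongr
    linarith
  have h9 : 1 / (q * L) ≤ 128 / M := by
    refine le_trans ?_ hinvL
    apply one_div_le_one_div_of_le hL0
    exact le_mul_of_one_le_left hL0.le hq1r
  have h10 : 160 / M = 4 / M + 128 / M + 28 / M := by ring
  have h11 : 0 ≤ 28 / M := by positivity
  linarith

lemma dy_aux {α : ℝ} (hα0 : 0 ≤ α) (hα1 : α ≤ 1) {X L M q : ℕ} (hR : Reg P y X α) (hL1 : 1 ≤ L) (hLX : L ≤ X)
    (hM1 : 1 ≤ M) (H j : ℕ) (hHq : (H : ℝ) / (q * L) ≤ 160 / M) (hinvL : 1 / (L : ℝ) ≤ 128 / M) :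
    (1 / 2 : ℝ) ^ j * ((y + 3) * psi P (max 1 (min (3 * (2 ^ (j + 1) * H)) L / q))) ≤
      (y + 3) * (y * ((psi P L : ℕ) : ℝ) * (3800 * (M : ℝ) ^ (-α))) := by
  have hM0 : (0 : ℝ) < M := by exact_mod_cast hM1
  have hL0 : (0 : ℝ) < L := by exact_mod_cast hL1
  have h2j : (1 : ℝ) ≤ 2 ^ j := one_le_pow₀ (by norm_num)
  have h5 : (psi P (max 1 (min (3 * (2 ^ (j + 1) * H)) L / q)) : ℝ) ≤
      y * ((psi P L : ℕ) : ℝ) * ((2 ^ j * 3800 : ℝ) / M) ^ α := by
    apply psi_cls hα0 hR hL1 hLX (min_le_right _ _) hM1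
    have hmin : ((min (3 * (2 ^ (j + 1) * H)) L : ℕ) : ℝ) ≤ 6 * 2 ^ j * H := by
      calc ((min (3 * (2 ^ (j + 1) * H)) L : ℕ) : ℝ) ≤ ((3 * (2 ^ (j + 1) * H) : ℕ) : ℝ) := by
            exact_mod_cast min_le_left _ _
        _ = 6 * 2 ^ j * H := by push_cast; ring
    calc 2 * (1 + ((min (3 * (2 ^ (j + 1) * H)) L : ℕ) : ℝ) / q) / L ≤
          2 * (1 + (6 * 2 ^ j * H) / q) / L := by gcongr
      _ = 2 * (1 / L) + 2 ^ j * (12 * (H / (q * L))) := by field_simp; ring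
      _ ≤ 2 * (128 / M) + 2 ^ j * (12 * (160 / M)) := by gcongr
      _ ≤ 2 ^ j * (2 * (128 / M)) + 2 ^ j * (12 * (160 / M)) := by
          have : 0 ≤ 2 * (128 / (M : ℝ)) := by positivity
          nlinarith
      _ = 2 ^ j * 2176 / M := by ring
      _ ≤ (2 ^ j * 3800 : ℝ) / M := by gcongr; norm_num
  have h6 : ((2 ^ j * 3800 : ℝ) / M) ^ α ≤ 2 ^ j * 3800 * (M : ℝ) ^ (-α) :=
    rpow_c hα0 hα1 (by linarith) hM0
  have h7 : (1 / 2 : ℝ) ^ j * 2 ^ j = 1 := by
    rw [← mul_pow]; norm_num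
  calc (1 / 2 : ℝ) ^ j * ((y + 3) * psi P (max 1 (min (3 * (2 ^ (j + 1) * H)) L / q))) ≤
        (1 / 2 : ℝ) ^ j * ((y + 3) * (y * ((psi P L : ℕ) : ℝ) * (2 ^ j * 3800 * (M : ℝ) ^ (-α)))) := by
        gcongr
        exact h5.trans (by gcongr)
    _ = ((1 / 2 : ℝ) ^ j * 2 ^ j) * ((y + 3) * (y * ((psi P L : ℕ) : ℝ) * (3800 * (M : ℝ) ^ (-α)))) := by ring
    _ = _ := by rw [h7, one_mul]

/-- the sum over the differences -/
lemma zsum (hP : ∀ p ∈ P, p.Prime ∧ p ≤ y) (hy : 1 ≤ y) {X : ℕ} {α : ℝ} (hα0 : 0 ≤ α) (hα1 : α ≤ 1)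
    (hR : Reg P y X α) {q : ℕ} (hq : 1 ≤ q) {b : ℤ} (hcop : IsCoprime b (q : ℤ)) (θ : ℝ) {M : ℕ}
    (hqM : q ≤ M) (h4 : 4 * q * |θ - b / q| * X ≤ M) (hM : (M : ℝ) ≤ q ∨ (M : ℝ) ≤ 8 * (q * |θ - b / q| * X))
    (hMX : M * M ≤ 64 * X) (hMX1 : M ≤ X) {l' : ℕ} (hl' : 1 ≤ l' ∧ l' ≤ X / M) :
    ∑ l ∈ S P (X / M), KK ((M * y : ℕ) : ℝ) (((l : ℝ) - l') * θ) ≤
      150000 * (y : ℝ) ^ 3 * (1 + Real.log X) ^ 2 * psi P (X / M) * (M : ℝ) ^ (1 - α) := by
  classical
  set L := X / M with hL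
  have hM1 : 1 ≤ M := hq.trans hqM
  have hL1 : 1 ≤ L := hl'.1.trans hl'.2
  have hX1 : 1 ≤ X := hM1.trans hMX1
  have hLX : L ≤ X := Nat.div_le_self _ _
  have hM0 : (0 : ℝ) < M := by exact_mod_cast hM1
  have hM1r : (1 : ℝ) ≤ M := by exact_mod_cast hM1
  have hX0 : (0 : ℝ) < X := by exact_mod_cast hX1
  have hL0 : (0 : ℝ) < L := by exact_mod_cast hL1
  have hq0 : (0 : ℝ) < q := by exact_mod_cast hq
  have hq1r : (1 : ℝ) ≤ q := by exact_mod_cast hq
  have hy1 : (1 : ℝ) ≤ y := by exact_mod_cast hy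
  have hqMr : (q : ℝ) ≤ M := by exact_mod_cast hqM
  have hMXr : (M : ℝ) * M ≤ 64 * X := by exact_mod_cast hMX
  have hLM : (L : ℝ) * M ≤ X := by exact_mod_cast (Nat.div_mul_le_self X M)
  have hXL : (X : ℝ) ≤ 2 * (L * M) := by
    have h5 : X < (L + 1) * M := by
      rw [← Nat.div_lt_iff_lt_mul (by omega)]
      omega
    have h6 : (X : ℝ) < (L + 1) * M := by exact_mod_cast h5
    have h7 : (1 : ℝ) ≤ L := by exact_mod_cast hL1
    nlinarith
  have hlogX : 0 ≤ Real.log X := Real.log_nonneg (by exact_mod_cast hX1)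
  set Λ := 1 + Real.log X with hΛ
  have hΛ1 : 1 ≤ Λ := by linarith
  set δ := |θ - b / q| with hδ
  have hδ0 : 0 ≤ δ := abs_nonneg _
  -- the condition for the class sums
  have hcond : 4 * q * δ * L ≤ 1 := by
    have h5 : 4 * q * δ * L * M ≤ 1 * M := by
      calc 4 * q * δ * L * M = 4 * q * δ * (L * M) := by ring
        _ ≤ 4 * q * δ * X := by gcongr
        _ ≤ 1 * M := by linarith
    exact le_of_mul_le_mul_right h5 hM0
  -- `1 / L`
  have hinvL : 1 / (L : ℝ) ≤ 128 / M := by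
    rw [div_le_div_iff₀ hL0 hM0]
    nlinarith
  set B : ℝ := ((M * y : ℕ) : ℝ) with hB
  have hBe : B = M * y := by rw [hB]; push_cast; ring
  have hB0 : 0 ≤ B := Nat.cast_nonneg _
  have hBM : (M : ℝ) ≤ B := by rw [hBe]; nlinarith
  set ψL : ℝ := ((psi P L : ℕ) : ℝ) with hψL
  have hψ0 : 0 ≤ ψL := Nat.cast_nonneg _
  set Mα : ℝ := (M : ℝ) ^ (-α) with hMα
  have hMα0 : 0 < Mα := by positivity
  have hMM : (M : ℝ) * Mα = (M : ℝ) ^ (1 - α) := by
    rw [hMα, sub_eq_add_neg, Real.rpow_add hM0, Real.rpow_one]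
  -- the other classes
  have hnon := nonres hP hq hcop θ hcond hB0 hl'
  have hnon2 : 3 * (q : ℝ) * (1 + Real.log q) * ((y + 3) * psi P (max 1 (L / q))) ≤
      3 * Λ * ((y + 3) * (y * ψL * (258 * (M * Mα)))) := by
    have h5 : (psi P (max 1 (L / q)) : ℝ) ≤ y * ψL * (258 / q) ^ α := by
      apply psi_cls hα0 hR hL1 hLX le_rfl hq
      have h6 : 2 * (1 + (L : ℝ) / q) / L = 2 * (1 / L) + 2 / q := by field_simp
      rw [h6]
      have h7 : 128 / (M : ℝ) ≤ 128 / q := by gcongr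
      have h8 : 258 / (q : ℝ) = 2 * (128 / q) + 2 / q := by ring
      linarith
    have h6 : (q : ℝ) * (258 / q : ℝ) ^ α ≤ 258 * (M * Mα) := by
      have h7 := rpow_c hα0 hα1 (show (1 : ℝ) ≤ 258 by norm_num) hq0
      calc (q : ℝ) * (258 / q : ℝ) ^ α ≤ q * (258 * (q : ℝ) ^ (-α)) := by gcongr
        _ = 258 * (q : ℝ) ^ (1 - α) := by
            rw [sub_eq_add_neg, Real.rpow_add hq0, Real.rpow_one]; ring
        _ ≤ 258 * (M : ℝ) ^ (1 - α) := by
            have : (q : ℝ) ^ (1 - α) ≤ (M : ℝ) ^ (1 - α) := Real.rpow_le_rpow hq0.le hqMr (by linarith)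
            linarith
        _ = 258 * (M * Mα) := by rw [hMM]
    have h7 : 1 + Real.log q ≤ Λ := by
      have : Real.log q ≤ Real.log X := Real.log_le_log hq0 (by exact_mod_cast hqM.trans hMX1)
      linarith
    have hlogq : 0 ≤ Real.log q := Real.log_nonneg hq1r
    calc 3 * (q : ℝ) * (1 + Real.log q) * ((y + 3) * psi P (max 1 (L / q))) ≤
          3 * (q : ℝ) * Λ * ((y + 3) * (y * ψL * (258 / q) ^ α)) := by gcongr
      _ = 3 * Λ * ((y + 3) * (y * ψL * ((q : ℝ) * (258 / q : ℝ) ^ α))) := by ring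
      _ ≤ _ := by gcongr
  -- the class of `l'`
  have hres : ∑ l ∈ (S P L).filter (fun l : ℕ => b * ((l : ℤ) - l') % q = 0), KK B (((l : ℝ) - l') * θ) ≤
      3 * B * (3 * Λ * ((y + 3) * (y * ψL * (3800 * Mα)))) := by
    rcases hM with hM | hM
    · have hqe : (q : ℝ) = M := le_antisymm hqMr hM
      refine (res1 hP hq hcop θ hB0).trans ?_
      have h5 : (psi P (max 1 (L / q)) : ℝ) ≤ y * ψL * (258 / M) ^ α := by
        apply psi_cls hα0 hR hL1 hLX le_rfl hM1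
        have h6 : 2 * (1 + (L : ℝ) / q) / L = 2 * (1 / L) + 2 / q := by field_simp
        rw [h6, hqe]
        have h8 : 258 / (M : ℝ) = 2 * (128 / M) + 2 / M := by ring
        linarith
      have h7 := rpow_c hα0 hα1 (show (1 : ℝ) ≤ 258 by norm_num) hM0
      calc 3 * B * ((y + 3) * psi P (max 1 (L / q))) ≤ 3 * B * ((y + 3) * (y * ψL * (258 * Mα))) := by
            gcongr
            exact h5.trans (by gcongr)
        _ ≤ 3 * B * (3 * Λ * ((y + 3) * (y * ψL * (3800 * Mα)))) := by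
            apply mul_le_mul_of_nonneg_left _ (by positivity)
            calc (y + 3) * (y * ψL * (258 * Mα)) ≤ (y + 3) * (y * ψL * (3800 * Mα)) := by gcongr; norm_num
              _ = 1 * ((y + 3) * (y * ψL * (3800 * Mα))) := by ring
              _ ≤ 3 * Λ * ((y + 3) * (y * ψL * (3800 * Mα))) := by
                  apply mul_le_mul_of_nonneg_right _ (by positivity)
                  linarith
    · -- dyadic
      have hE : 0 < q * δ * X := by
        by_contra hcon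
        push Not at hcon
        linarith
      have hδpos : 0 < δ := by
        rcases hδ0.eq_or_lt with h | h
        · rw [← h] at hE; simp at hE
        · exact h
      have hB1 : 0 < B := lt_of_lt_of_le hM0 hBM
      set H := ⌈1 / (4 * B * δ)⌉₊ with hH
      have hH1 : 1 ≤ H := Nat.ceil_pos.2 (by positivity)
      have hHlo : 1 / (4 * B * δ) ≤ H := Nat.le_ceil _
      have hHhi : (H : ℝ) ≤ 1 / (4 * B * δ) + 1 := (Nat.ceil_lt_add_one (by positivity)).le
      have hH2 : 1 ≤ 4 * B * |θ - b / q| * H := by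
        rw [← hδ]
        calc (1 : ℝ) = 4 * B * δ * (1 / (4 * B * δ)) := by field_simp
          _ ≤ 4 * B * δ * H := by gcongr
      set J := Nat.clog 2 L with hJ
      have hLJ : L ≤ 2 ^ J := Nat.le_pow_clog (by norm_num) _
      refine (res2 hP hq hcop θ hcond hB0 hl' H J hH1 hH2 hLJ).trans ?_
      apply mul_le_mul_of_nonneg_left _ (by positivity)
      have hHq := hHq_aux hB1 hδpos hq1r hL0 hM0 hBM hXL hM hHhi hinvL
      have hterm : ∀ j ∈ range (J + 1), (1 / 2 : ℝ) ^ j *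
          ((y + 3) * psi P (max 1 (min (3 * (2 ^ (j + 1) * H)) L / q))) ≤
          (y + 3) * (y * ψL * (3800 * Mα)) := fun j _ =>
        dy_aux hα0 hα1 hR hL1 hLX hM1 H j hHq hinvL
      refine (sum_le_sum hterm).trans ?_
      rw [sum_const, card_range, nsmul_eq_mul]
      apply mul_le_mul_of_nonneg_right _ (by positivity)
      -- `J + 1 ≤ 3 Λ`
      have hJ2 : (J : ℝ) ≤ 1 + 2 * Real.log X := by
        rcases Nat.lt_or_ge L 2 with h | h
        · have : J = 0 := by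
            rw [hJ]; exact Nat.clog_of_right_le_one (by omega) 2
          rw [this]; push_cast; linarith
        · have h5 : 2 ^ (J - 1) < L := by
            have := Nat.pow_pred_clog_lt_self (b := 2) (by norm_num) (x := L) (by omega)
            rwa [← hJ, Nat.pred_eq_sub_one] at this
          have h6 : ((2 : ℝ) ^ (J - 1)) ≤ L := by exact_mod_cast h5.le
          have h7 := Real.log_le_log (by positivity) h6
          rw [Real.log_pow] at h7
          have h8 : Real.log L ≤ Real.log X := Real.log_le_log hL0 (by exact_mod_cast hLX)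
          have h9 : (1 : ℝ) / 2 ≤ Real.log 2 := by linarith [Real.log_two_gt_d9]
          have h10 : (J : ℝ) - 1 ≤ ((J - 1 : ℕ) : ℝ) := by
            have : J ≤ (J - 1) + 1 := by omega
            have : (J : ℝ) ≤ ((J - 1 : ℕ) : ℝ) + 1 := by exact_mod_cast this
            linarith
          have h11 : 0 ≤ ((J - 1 : ℕ) : ℝ) := Nat.cast_nonneg _
          nlinarith
      push_cast
      linarith
  -- together
  have hsplit : ∑ l ∈ S P L, KK B (((l : ℝ) - l') * θ) =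
      ∑ l ∈ (S P L).filter (fun l : ℕ => b * ((l : ℤ) - l') % q = 0), KK B (((l : ℝ) - l') * θ) +
      ∑ l ∈ (S P L).filter (fun l : ℕ => b * ((l : ℤ) - l') % q ≠ 0), KK B (((l : ℝ) - l') * θ) :=
    (sum_filter_add_sum_filter_not _ _ _).symm
  rw [hsplit, ← hMM]
  have h9 : (y : ℝ) + 3 ≤ 4 * y := by linarith
  calc _ ≤ 3 * B * (3 * Λ * ((y + 3) * (y * ψL * (3800 * Mα)))) +
        3 * Λ * ((y + 3) * (y * ψL * (258 * (M * Mα)))) := add_le_add hres (hnon.trans hnon2)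
    _ ≤ 3 * (M * y) * (3 * Λ * (4 * y * (y * ψL * (3800 * Mα)))) +
        3 * Λ * (4 * y * (y * ψL * (258 * (M * Mα)))) := by
        rw [hBe]; gcongr
    _ = (136800 * (y : ℝ) ^ 3 + 3096 * (y : ℝ) ^ 2) * (Λ * ψL * (M * Mα)) := by ring
    _ ≤ (150000 * (y : ℝ) ^ 3) * (Λ ^ 2 * ψL * (M * Mα)) := by
        apply mul_le_mul _ _ (by positivity) (by positivity)
        · have : (y : ℝ) ^ 2 ≤ (y : ℝ) ^ 3 := pow_le_pow_right₀ hy1 (by norm_num)
          linarith [show (0 : ℝ) ≤ (y : ℝ) ^ 3 by positivity]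
        · have : Λ ≤ Λ ^ 2 := by nlinarith
          gcongr
    _ = _ := by ring

end Pool.Agent.K7.H49.SM
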