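import Mathlib
import Pool.Agent.K7.H49.SM.SupB
import Pool.Agent.H373R2.T7.BilE

/-! Exponential sums over the integers composed of given primes: the bound for the exponential sum and for
the additive energy (helper49). -/

set_option autoImplicit false

namespace Pool.Agent.K7.H49.SM

open Finset
open Pool.Agent.H807R2.Dav

variable {P : Finset ℕ} {y : ℕ}

lemma card_P_le (hP : ∀ p ∈ P, p.Prime ∧ p ≤ y) : P.card ≤ y := by
  calc P.card ≤ (Icc 1 y).card := card_le_card fun p hp => by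
        rw [mem_Icc]; exact ⟨(hP p hp).1.one_lt.le, (hP p hp).2⟩
    _ = y := by rw [Nat.card_Icc]; omega

/-- the bound for the exponential sum -/
theorem supB (hP : ∀ p ∈ P, p.Prime ∧ p ≤ y) (hy : 1 ≤ y) {X : ℕ} {α : ℝ} (hα0 : 0 ≤ α) (hα1 : α ≤ 1)
    (hR : Reg P y X α) {q : ℕ} (hq : 1 ≤ q) {b : ℤ} (hcop : IsCoprime b (q : ℤ)) (θ : ℝ) {M : ℕ}
    (hqM : q ≤ M) (h4 : 4 * q * |θ - b / q| * X ≤ M) (hM : (M : ℝ) ≤ q ∨ (M : ℝ) ≤ 8 * (q * |θ - b / q| * X))
    (hMX : M * M ≤ 64 * X) (hMX1 : M ≤ X) :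
    ‖∑ n ∈ S P X, ee ((n : ℝ) * θ)‖ ≤
      1000 * (y : ℝ) ^ 4 * (1 + Real.log X) * psi P X * (M : ℝ) ^ (-((2 * α - 1) / 2)) := by
  classical
  have hM1 : 1 ≤ M := hq.trans hqM
  have hX1 : 1 ≤ X := hM1.trans hMX1
  have hM0 : (0 : ℝ) < M := by exact_mod_cast hM1
  have hM1r : (1 : ℝ) ≤ M := by exact_mod_cast hM1
  have hX0 : (0 : ℝ) < X := by exact_mod_cast hX1
  have hy1 : (1 : ℝ) ≤ y := by exact_mod_cast hy
  have hlogX : 0 ≤ Real.log X := Real.log_nonneg (by exact_mod_cast hX1)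
  set Λ := 1 + Real.log X with hΛ
  have hΛ1 : 1 ≤ Λ := by linarith
  set ψ : ℝ := ((psi P X : ℕ) : ℝ) with hψ
  have hψ0 : 0 ≤ ψ := Nat.cast_nonneg _
  set Mc : ℝ := (M : ℝ) ^ (-((2 * α - 1) / 2)) with hMc
  have hMc0 : 0 < Mc := by positivity
  -- small elements
  have hsplit : ∑ n ∈ S P X, ee ((n : ℝ) * θ) =
      ∑ n ∈ (S P X).filter (fun n => M < n), ee ((n : ℝ) * θ) +
      ∑ n ∈ (S P X).filter (fun n => ¬ M < n), ee ((n : ℝ) * θ) := (sum_filter_add_sum_filter_not _ _ _).symm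
  have hsmall : ‖∑ n ∈ (S P X).filter (fun n => ¬ M < n), ee ((n : ℝ) * θ)‖ ≤ 128 * y * ψ * Mc := by
    have h1 : ‖∑ n ∈ (S P X).filter (fun n => ¬ M < n), ee ((n : ℝ) * θ)‖ ≤ psi P M := by
      refine (norm_sum_le _ _).trans ?_
      simp only [norm_ee, sum_const, nsmul_eq_mul, mul_one]
      have : ((S P X).filter (fun n => ¬ M < n)).card ≤ psi P M := by
        apply card_le_card
        intro n hn
        rw [mem_filter, mem_S] at hn
        rw [mem_S]
        exact ⟨hn.1.1, by omega, hn.1.2.2⟩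
      exact_mod_cast this
    have h2 := psi_small hα0 hR hM1 hMX1 le_rfl
    have h3 : (2 * (M : ℝ) / X) ≤ 128 / M := by
      rw [div_le_div_iff₀ hX0 hM0]
      have : (M : ℝ) * M ≤ 64 * X := by exact_mod_cast hMX
      nlinarith
    have h4 : (2 * (M : ℝ) / X) ^ α ≤ 128 * Mc := by
      calc (2 * (M : ℝ) / X) ^ α ≤ (128 / M : ℝ) ^ α := Real.rpow_le_rpow (by positivity) h3 hα0
        _ ≤ 128 * (M : ℝ) ^ (-α) := rpow_c hα0 hα1 (by norm_num) hM0
        _ ≤ 128 * Mc := by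
            apply mul_le_mul_of_nonneg_left _ (by norm_num)
            exact Real.rpow_le_rpow_of_exponent_le hM1r (by linarith)
    calc _ ≤ (psi P M : ℝ) := h1
      _ ≤ y * ψ * (2 * (M : ℝ) / X) ^ α := h2
      _ ≤ y * ψ * (128 * Mc) := by gcongr
      _ = _ := by ring
  -- large elements
  have hterm : ∀ p ∈ P, ‖∑ m ∈ Ms P y M p, ∑ l ∈ (Ls P (X / M) p).filter (fun l => m * l ≤ X),
      ee ((m * l : ℕ) * θ)‖ ≤ 600 * (y : ℝ) ^ 3 * Λ * ψ * Mc := by
    intro p hp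
    have h1 := bilinear (P := P) (y := y) X M p θ
    set Z : ℝ := 150000 * (y : ℝ) ^ 3 * Λ ^ 2 * psi P (X / M) * (M : ℝ) ^ (1 - α) with hZ
    have hZ0 : 0 ≤ Z := by rw [hZ]; positivity
    have h2 : ∑ l' ∈ Ls P (X / M) p, ∑ l ∈ Ls P (X / M) p, KK ((M * y : ℕ) : ℝ) (((l : ℝ) - l') * θ) ≤
        (Ls P (X / M) p).card * Z := by
      rw [← nsmul_eq_mul]
      apply sum_le_card_nsmul
      intro l' hl'
      have hl2 := mem_S.1 (mem_filter.1 (show l' ∈ Ls P (X / M) p from hl')).1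
      refine le_trans ?_ (zsum hP hy hα0 hα1 hR hq hcop θ hqM h4 hM hMX hMX1 ⟨hl2.1, hl2.2.1⟩)
      apply sum_le_sum_of_subset_of_nonneg (filter_subset _ _)
      intro l _ _
      exact KK_nonneg (Nat.cast_nonneg _) _
    have h3 : ((Ms P y M p).card : ℝ) * (Ls P (X / M) p).card ≤ 2 * (y : ℝ) ^ 2 * ψ := by
      have h44 := card_pairs hP X M p hp hX1
      have h5 : ((Ms P y M p).card : ℝ) * (Ls P (X / M) p).card ≤ ((y : ℝ) * y + 1) * ψ := by
        rw [hψ]
        exact_mod_cast h44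
      refine h5.trans ?_
      apply mul_le_mul_of_nonneg_right _ hψ0
      nlinarith
    have h5 : (psi P (X / M) : ℝ) * (M : ℝ) ^ α ≤ y * ψ := hR X M hM1 le_rfl
    have h6 : (psi P (X / M) : ℝ) * (M : ℝ) ^ (1 - α) ≤ y * ψ * Mc ^ 2 := by
      have e1 : (M : ℝ) ^ (1 - α) = (M : ℝ) ^ α * Mc ^ 2 := by
        rw [hMc, ← Real.rpow_natCast, ← Real.rpow_mul hM0.le, ← Real.rpow_add hM0]
        congr 1
        push_cast
        ring
      rw [e1, ← mul_assoc]
      exact mul_le_mul_of_nonneg_right h5 (by positivity)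
    have h7 : ‖∑ m ∈ Ms P y M p, ∑ l ∈ (Ls P (X / M) p).filter (fun l => m * l ≤ X), ee ((m * l : ℕ) * θ)‖ ^ 2 ≤
        (600 * (y : ℝ) ^ 3 * Λ * ψ * Mc) ^ 2 := by
      calc _ ≤ ((Ms P y M p).card : ℝ) * ((Ls P (X / M) p).card * Z) :=
            h1.trans (mul_le_mul_of_nonneg_left h2 (Nat.cast_nonneg _))
        _ = (((Ms P y M p).card : ℝ) * (Ls P (X / M) p).card) * Z := by ring
        _ ≤ (2 * (y : ℝ) ^ 2 * ψ) * Z := mul_le_mul_of_nonneg_right h3 hZ0
        _ = 300000 * (y : ℝ) ^ 5 * Λ ^ 2 * ψ * ((psi P (X / M) : ℝ) * (M : ℝ) ^ (1 - α)) := by rw [hZ]; ring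
        _ ≤ 300000 * (y : ℝ) ^ 5 * Λ ^ 2 * ψ * (y * ψ * Mc ^ 2) := by gcongr
        _ = 300000 * ((y : ℝ) ^ 3 * Λ * ψ * Mc) ^ 2 := by ring
        _ ≤ 360000 * ((y : ℝ) ^ 3 * Λ * ψ * Mc) ^ 2 := by
            have : 0 ≤ ((y : ℝ) ^ 3 * Λ * ψ * Mc) ^ 2 := by positivity
            linarith
        _ = _ := by ring
    exact le_of_sq_le_sq h7 (by positivity)
  rw [hsplit]
  refine (norm_add_le _ _).trans ?_
  have hlarge : ‖∑ n ∈ (S P X).filter (fun n => M < n), ee ((n : ℝ) * θ)‖ ≤ y * (600 * (y : ℝ) ^ 3 * Λ * ψ * Mc) := by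
    rw [decomp_sum hP X M hM1 (fun n => ee ((n : ℝ) * θ))]
    refine (norm_sum_le _ _).trans ((sum_le_sum hterm).trans ?_)
    rw [sum_const, nsmul_eq_mul]
    apply mul_le_mul_of_nonneg_right _ (by positivity)
    exact_mod_cast card_P_le hP
  calc _ ≤ y * (600 * (y : ℝ) ^ 3 * Λ * ψ * Mc) + 128 * y * ψ * Mc := add_le_add hlarge hsmall
    _ = 600 * ((y : ℝ) ^ 4 * Λ * ψ * Mc) + 128 * (y * 1 * ψ * Mc) := by ring
    _ ≤ 600 * ((y : ℝ) ^ 4 * Λ * ψ * Mc) + 128 * ((y : ℝ) ^ 4 * Λ * ψ * Mc) := by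
        gcongr
        exact le_self_pow₀ hy1 (by norm_num)
    _ ≤ _ := by
        have : 0 ≤ (y : ℝ) ^ 4 * Λ * ψ * Mc := by positivity
        linarith

/-- the data of a frequency -/
lemma approx (X : ℕ) (hX : 64 ≤ X) (θ : ℝ) : ∃ (q M : ℕ) (b : ℤ), 1 ≤ q ∧ IsCoprime b (q : ℤ) ∧ q ≤ M ∧
    4 * q * |θ - b / q| * X ≤ M ∧ ((M : ℝ) ≤ q ∨ (M : ℝ) ≤ 8 * (q * |θ - b / q| * X)) ∧ M * M ≤ 64 * X ∧
    M ≤ X := by
  set n := Nat.sqrt X with hn
  have hn8 : 8 ≤ n := by
    rw [hn, Nat.le_sqrt]; omega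
  have hn1 : n * n ≤ X := Nat.sqrt_le X
  have hn2 : X < (n + 1) * (n + 1) := Nat.lt_succ_sqrt X
  obtain ⟨r, hr1, hr2⟩ := Real.exists_rat_abs_sub_le_and_den_le θ (n := n) (by omega)
  set q := r.den with hq
  have hq1 : 1 ≤ q := r.den_pos
  have hq0 : (0 : ℝ) < q := by exact_mod_cast hq1
  have hcast : ((r : ℚ) : ℝ) = (r.num : ℝ) / q := by
    rw [hq]; exact_mod_cast (Rat.num_div_den r).symm
  rw [hcast] at hr1
  set δ := |θ - r.num / q| with hδ
  have hX0 : (0 : ℝ) < X := by exact_mod_cast (by omega : 0 < X)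
  have hn0 : (0 : ℝ) < n := by exact_mod_cast (by omega : 0 < n)
  have hE : q * δ * X ≤ n + 1 := by
    have h1 : q * δ ≤ 1 / (n + 1) := by
      calc q * δ ≤ q * (1 / ((n + 1) * q)) := by gcongr
        _ = 1 / (n + 1) := by field_simp
    have h2 : (X : ℝ) ≤ (n + 1) * (n + 1) := by
      have : ((X : ℕ) : ℝ) ≤ (((n + 1) * (n + 1) : ℕ) : ℝ) := by exact_mod_cast hn2.le
      push_cast at this
      exact this
    calc q * δ * X ≤ 1 / (n + 1) * ((n + 1) * (n + 1)) := by gcongr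
      _ = n + 1 := by field_simp
  have hδ0 : 0 ≤ δ := abs_nonneg _
  set M := max q ⌈4 * (q * δ * X)⌉₊ with hM
  have hMn : M ≤ 8 * n := by
    apply max_le (by omega)
    rw [Nat.ceil_le]
    push_cast
    have : (8 : ℝ) ≤ n := by exact_mod_cast hn8
    linarith
  refine ⟨q, M, r.num, hq1, ?_, le_max_left _ _, ?_, ?_, ?_, ?_⟩
  · rw [hq]
    exact Int.isCoprime_iff_gcd_eq_one.2 r.reduced
  · have h1 : 4 * (q * δ * X) ≤ (⌈4 * (q * δ * X)⌉₊ : ℝ) := Nat.le_ceil _
    have h2 : (⌈4 * (q * δ * X)⌉₊ : ℝ) ≤ M := by exact_mod_cast le_max_right _ _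
    calc 4 * q * δ * X = 4 * (q * δ * X) := by ring
      _ ≤ _ := h1.trans h2
  · rcases lt_or_ge q ⌈4 * (q * δ * X)⌉₊ with h | h
    · right
      have hMe : M = ⌈4 * (q * δ * X)⌉₊ := max_eq_right h.le
      have h1 : (1 : ℝ) < 4 * (q * δ * X) := by
        by_contra hcon
        push Not at hcon
        have : ⌈4 * (q * δ * X)⌉₊ ≤ 1 := by
          rw [Nat.ceil_le]; exact_mod_cast hcon
        omega
      have h2 : (M : ℝ) < 4 * (q * δ * X) + 1 := by
        rw [hMe]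
        exact Nat.ceil_lt_add_one (by positivity)
      linarith
    · left
      have hMe : M = q := max_eq_left h
      rw [hMe]
  · calc M * M ≤ (8 * n) * (8 * n) := Nat.mul_le_mul hMn hMn
      _ = 64 * (n * n) := by ring
      _ ≤ 64 * X := Nat.mul_le_mul_left _ hn1
  · calc M ≤ 8 * n := hMn
      _ ≤ n * n := Nat.mul_le_mul_right _ hn8
      _ ≤ X := hn1

lemma sum_inv_sq' (n : ℕ) : ∑ R ∈ Icc 1 (n + 1), (1 : ℝ) / (R : ℝ) ^ 2 ≤ 2 - 1 / ((n : ℝ) + 1) := by
  induction n with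
  | zero => norm_num
  | succ n ih =>
    rw [sum_Icc_succ_top (by omega)]
    have h1 : (1 : ℝ) / ((n + 1 + 1 : ℕ) : ℝ) ^ 2 ≤ 1 / ((n : ℝ) + 1) - 1 / ((n : ℝ) + 1 + 1) := by
      push_cast
      have hn : (0 : ℝ) < (n : ℝ) + 1 := by positivity
      rw [div_sub_div _ _ (by positivity) (by positivity), div_le_div_iff₀ (by positivity) (by positivity)]
      ring_nf
      nlinarith
    push_cast at ih h1 ⊢
    linarith

lemma sum_inv_sq (n : ℕ) : ∑ R ∈ Icc 1 n, (1 : ℝ) / (R : ℝ) ^ 2 ≤ 2 := by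
  rcases n with _ | n
  · norm_num
  · refine (sum_inv_sq' n).trans ?_
    have : (0 : ℝ) ≤ 1 / ((n : ℝ) + 1) := by positivity
    linarith

/-- the number of frequencies with given data -/
lemma count_le {X : ℕ} (hX : 1 ≤ X) (q M : ℕ → ℕ) (b : ℕ → ℤ) (hq : ∀ t, 1 ≤ q t) (hqM : ∀ t, q t ≤ M t)
    (h4 : ∀ t : ℕ, 4 * q t * |(t : ℝ) / X - b t / q t| * X ≤ M t) (hMX : ∀ t, M t ≤ X) (R : ℕ) :
    ((range X).filter (fun t => M t = R)).card ≤ (R + 1) * ((R + 1) * (2 * R + 2)) := by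
  classical
  have hX0 : (0 : ℝ) < X := by exact_mod_cast hX
  have key : ∀ t ∈ (range X).filter (fun t => M t = R), 0 ≤ b t ∧ b t ≤ q t ∧ q t ≤ R ∧
      (b t).toNat * X / q t ≤ t + R ∧ t + R < (b t).toNat * X / q t + (2 * R + 2) := by
    intro t ht
    rw [mem_filter, mem_range] at ht
    have hq0 : (0 : ℝ) < q t := by exact_mod_cast hq t
    have h5 := h4 t
    have hMr : (M t : ℝ) = R := by rw [ht.2]
    have hRX : (R : ℝ) ≤ X := by
      have := hMX t
      rw [ht.2] at this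
      exact_mod_cast this
    have hq1 : (1 : ℝ) ≤ q t := by exact_mod_cast hq t
    have e1 : 4 * q t * |(t : ℝ) / X - b t / q t| * X = 4 * |(t : ℝ) * q t - b t * X| := by
      have : (t : ℝ) * q t - b t * X = ((t : ℝ) / X - b t / q t) * (q t * X) := by
        field_simp
      rw [this, abs_mul, abs_of_pos (mul_pos hq0 hX0)]
      ring
    rw [e1, hMr] at h5
    have h6 := abs_le.1 (show |(t : ℝ) * q t - b t * X| ≤ R / 4 by linarith)
    have htX : (t : ℝ) + 1 ≤ X := by exact_mod_cast ht.1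
    have ht0 : (0 : ℝ) ≤ t := Nat.cast_nonneg _
    have hb0 : 0 ≤ b t := by
      by_contra hcon
      push Not at hcon
      have : (b t : ℝ) ≤ -1 := by
        have : b t ≤ -1 := by omega
        exact_mod_cast this
      nlinarith [mul_nonneg ht0 hq0.le]
    have hbq : b t ≤ q t := by
      by_contra hcon
      push Not at hcon
      have : (q t : ℝ) + 1 ≤ b t := by
        have : (q t : ℤ) + 1 ≤ b t := by omega
        exact_mod_cast this
      nlinarith [mul_le_mul_of_nonneg_right this hX0.le, mul_le_mul_of_nonneg_right htX hq0.le]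
    have hqR : q t ≤ R := ht.2 ▸ hqM t
    have hbn : ((b t).toNat : ℝ) = b t := by
      have : (((b t).toNat : ℤ) : ℝ) = b t := by rw [Int.toNat_of_nonneg hb0]
      exact_mod_cast this
    set c := (b t).toNat * X / q t with hc
    have hc1 : c * q t ≤ (b t).toNat * X := Nat.div_mul_le_self _ _
    have hc2 : (b t).toNat * X < (c + 1) * q t := by
      rw [hc, Nat.add_mul, one_mul]
      exact Nat.lt_div_mul_add (by have := hq t; omega)
    have hc1r : (c : ℝ) * q t ≤ b t * X := by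
      rw [← hbn]; exact_mod_cast hc1
    have hc2r : (b t : ℝ) * X < (c + 1) * q t := by
      rw [← hbn]; exact_mod_cast hc2
    have hRq : (R : ℝ) ≤ R * q t := le_mul_of_one_le_right (Nat.cast_nonneg _) hq1
    refine ⟨hb0, hbq, hqR, ?_, ?_⟩
    · have : (c : ℝ) ≤ t + R := by
        by_contra hcon
        push Not at hcon
        have := mul_lt_mul_of_pos_right hcon hq0
        nlinarith [h6.1, h6.2]
      exact_mod_cast this
    · have : (t : ℝ) + R < c + (2 * R + 2) := by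
        by_contra hcon
        push Not at hcon
        have := mul_le_mul_of_nonneg_right hcon hq0.le
        nlinarith [h6.1, h6.2]
      exact_mod_cast this
  calc _ ≤ (range (R + 1) ×ˢ (range (R + 1) ×ˢ range (2 * R + 2))).card := by
        apply card_le_card_of_injOn (fun t => (q t, (b t).toNat, t + R - (b t).toNat * X / q t))
        · intro t ht
          obtain ⟨k1, k2, k3, k4, k5⟩ := key t ht
          simp only [coe_product, Set.mem_prod, mem_coe, mem_range]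
          refine ⟨by omega, by omega, by omega⟩
        · intro t ht t' ht' hE
          obtain ⟨k1, k2, k3, k4, k5⟩ := key t ht
          obtain ⟨k1', k2', k3', k4', k5'⟩ := key t' ht'
          simp only [Prod.mk.injEq] at hE
          obtain ⟨e1, e2, e3⟩ := hE
          rw [← e1, ← e2] at e3 k4'
          omega
    _ = _ := by rw [card_product, card_product, card_range, card_range]

/-- the moment of the exponential sum over the frequencies with denominator `X` -/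
theorem moment (hP : ∀ p ∈ P, p.Prime ∧ p ≤ y) (hy : 1 ≤ y) {X : ℕ} (hX : 64 ≤ X) {α : ℝ} (hα0 : 0 ≤ α)
    (hα1 : α ≤ 1) (hR : Reg P y X α) (h : ℕ) (hh : 5 ≤ h * (2 * α - 1)) :
    ∑ t ∈ range X, ‖∑ n ∈ S P X, ee ((n : ℝ) * ((t : ℝ) / X))‖ ^ (2 * h) ≤
      32 * (1000 * (y : ℝ) ^ 4 * (1 + Real.log X) * psi P X) ^ (2 * h) := by
  classical
  have hd := fun t : ℕ => approx X hX ((t : ℝ) / X)
  choose q M b h1 h2 h3 h4 h5 h6 h7 using hd
  have hlogX : 0 ≤ Real.log X := Real.log_nonneg (by exact_mod_cast (by omega : 1 ≤ X))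
  set A : ℝ := 1000 * (y : ℝ) ^ 4 * (1 + Real.log X) * psi P X with hA
  have hA0 : 0 ≤ A := by rw [hA]; positivity
  have hterm : ∀ t ∈ range X, ‖∑ n ∈ S P X, ee ((n : ℝ) * ((t : ℝ) / X))‖ ^ (2 * h) ≤ A ^ (2 * h) * (1 / (M t : ℝ) ^ 5) := by
    intro t _
    have hM1 : (1 : ℝ) ≤ M t := by exact_mod_cast (h1 t).trans (h3 t)
    have hM0 : (0 : ℝ) < M t := by linarith
    have k := supB hP hy hα0 hα1 hR (h1 t) (h2 t) ((t : ℝ) / X) (h3 t) (h4 t) (h5 t) (h6 t) (h7 t)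
    calc _ ≤ (A * (M t : ℝ) ^ (-((2 * α - 1) / 2))) ^ (2 * h) := by
          gcongr
      _ = A ^ (2 * h) * (M t : ℝ) ^ (-(h * (2 * α - 1))) := by
          rw [mul_pow, ← Real.rpow_mul_natCast hM0.le]
          congr 2
          push_cast
          ring
      _ ≤ A ^ (2 * h) * (M t : ℝ) ^ (-(5 : ℝ)) := by
          apply mul_le_mul_of_nonneg_left _ (by positivity)
          exact Real.rpow_le_rpow_of_exponent_le hM1 (by linarith)
      _ = _ := by
          rw [Real.rpow_neg hM0.le, one_div]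
          norm_cast
  calc _ ≤ ∑ t ∈ range X, A ^ (2 * h) * (1 / (M t : ℝ) ^ 5) := sum_le_sum hterm
    _ = A ^ (2 * h) * ∑ t ∈ range X, 1 / (M t : ℝ) ^ 5 := by rw [mul_sum]
    _ = A ^ (2 * h) * ∑ R ∈ Icc 1 X, ∑ t ∈ (range X).filter (fun t => M t = R), 1 / (M t : ℝ) ^ 5 := by
        rw [sum_fiberwise_of_maps_to]
        intro t _
        rw [mem_Icc]
        exact ⟨(h1 t).trans (h3 t), h7 t⟩
    _ ≤ A ^ (2 * h) * ∑ R ∈ Icc 1 X, 16 * (1 / (R : ℝ) ^ 2) := by
        apply mul_le_mul_of_nonneg_left _ (by positivity)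
        apply sum_le_sum
        intro R hRm
        have hR1 : 1 ≤ R := (mem_Icc.1 hRm).1
        have hR1r : (1 : ℝ) ≤ R := by exact_mod_cast hR1
        have e1 : ∑ t ∈ (range X).filter (fun t => M t = R), 1 / (M t : ℝ) ^ 5 =
            ((range X).filter (fun t => M t = R)).card * (1 / (R : ℝ) ^ 5) := by
          rw [← nsmul_eq_mul, ← sum_const]
          apply sum_congr rfl
          intro t ht
          rw [(mem_filter.1 ht).2]
        have e2 : (((range X).filter (fun t => M t = R)).card : ℝ) ≤ ((R + 1) * ((R + 1) * (2 * R + 2)) : ℕ) := by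
          exact_mod_cast count_le (by omega) q M b h1 h3 h4 h7 R
        rw [e1]
        calc _ ≤ (((R + 1) * ((R + 1) * (2 * R + 2)) : ℕ) : ℝ) * (1 / (R : ℝ) ^ 5) := by gcongr
          _ ≤ (16 * (R : ℝ) ^ 3) * (1 / (R : ℝ) ^ 5) := by
              apply mul_le_mul_of_nonneg_right _ (by positivity)
              push_cast
              calc ((R : ℝ) + 1) * ((R + 1) * (2 * R + 2)) ≤ (2 * R) * ((2 * R) * (4 * R)) := by
                    gcongr <;> linarith
                _ = _ := by ring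
          _ = _ := by field_simp
    _ = A ^ (2 * h) * (16 * ∑ R ∈ Icc 1 X, 1 / (R : ℝ) ^ 2) := by rw [← mul_sum]
    _ ≤ A ^ (2 * h) * (16 * 2) := by
        gcongr
        exact sum_inv_sq X
    _ = _ := by ring

end Pool.Agent.K7.H49.SM
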