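import Mathlib
import Pool.Agent.K7.H49.SM.Energy
import Pool.Agent.W93.GB4

/-! The additive energy of the set of the integers composed of given primes, and the number of exceptional
elements in Goldbach's problem (helper49). -/

set_option autoImplicit false

namespace Pool.Agent.K7.H49.SM

open Finset
open Pool.Agent.H807R2.Dav
open Pool.Agent.H560R3.GB (energy)

variable {P : Finset ℕ} {y : ℕ}

/-- regularity from the number of primes -/
lemma reg_of (hP : ∀ p ∈ P, p.Prime ∧ p ≤ y) (hy : 2 ≤ y) {X U : ℕ} (hU : Nat.log 2 X ≤ U) (hU1 : 1 ≤ U) {α : ℝ}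
    (hα0 : 0 ≤ α) (hα1 : α ≤ 1) (hc : (y : ℝ) ^ α * U ≤ P.card) : Reg P y X α := by
  classical
  intro N D hD hN
  have hy0 : (0 : ℝ) < y := by exact_mod_cast (by omega : 0 < y)
  have hy1 : (1 : ℝ) ≤ y := by exact_mod_cast (by omega : 1 ≤ y)
  have hUr : (0 : ℝ) < U := by exact_mod_cast hU1
  have hfil : P.filter (fun p => 2 ≤ p) = P := filter_true_of_mem fun p hp => (hP p hp).1.two_le
  obtain ⟨k, hk⟩ : ∃ k, k = Nat.log y D := ⟨_, rfl⟩
  have hk1 : y ^ k ≤ D := by rw [hk]; exact Nat.pow_log_le_self y (by omega)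
  have hk2 : D < y ^ (k + 1) := by rw [hk]; exact Nat.lt_pow_succ_log_self (by omega) D
  have h1 := reg_nat hP 2 N D k U le_rfl ((Nat.log_mono_right hN).trans hU) hk1 hD
  rw [hfil] at h1
  have h1r : (psi P (N / D) : ℝ) * (P.card : ℝ) ^ k ≤ psi P N * (U : ℝ) ^ k := by exact_mod_cast h1
  have h2 : (psi P (N / D) : ℝ) * ((y : ℝ) ^ α) ^ k ≤ psi P N := by
    have h3 : (psi P (N / D) : ℝ) * ((y : ℝ) ^ α * U) ^ k ≤ psi P N * (U : ℝ) ^ k :=
      le_trans (by gcongr) h1r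
    rw [mul_pow, ← mul_assoc] at h3
    exact le_of_mul_le_mul_right h3 (by positivity)
  have h4 : (D : ℝ) ^ α ≤ ((y : ℝ) ^ α) ^ k * y := by
    have h5 : (D : ℝ) ≤ (y : ℝ) ^ (k + 1) := by exact_mod_cast hk2.le
    calc (D : ℝ) ^ α ≤ ((y : ℝ) ^ (k + 1)) ^ α := Real.rpow_le_rpow (Nat.cast_nonneg _) h5 hα0
      _ = ((y : ℝ) ^ α) ^ (k + 1) := by
          rw [← Real.rpow_natCast, ← Real.rpow_natCast, ← Real.rpow_mul hy0.le, ← Real.rpow_mul hy0.le, mul_comm]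
      _ = ((y : ℝ) ^ α) ^ k * (y : ℝ) ^ α := pow_succ _ _
      _ ≤ ((y : ℝ) ^ α) ^ k * (y : ℝ) ^ (1 : ℝ) := by
          apply mul_le_mul_of_nonneg_left _ (by positivity)
          exact Real.rpow_le_rpow_of_exponent_le hy1 hα1
      _ = _ := by rw [Real.rpow_one]
  calc (psi P (N / D) : ℝ) * (D : ℝ) ^ α ≤ psi P (N / D) * (((y : ℝ) ^ α) ^ k * y) := by gcongr
    _ = (psi P (N / D) * ((y : ℝ) ^ α) ^ k) * y := by ring
    _ ≤ psi P N * y := by gcongr
    _ = _ := mul_comm _ _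

/-- an enumeration of a finite set -/
lemma enum (T : Finset ℕ) : ∃ e : ℕ → ℕ, (∀ m ∈ Icc 1 T.card, e m ∈ T) ∧
    (∀ m ∈ Icc 1 T.card, ∀ n ∈ Icc 1 T.card, e m = e n → m = n) ∧ ∀ n ∈ T, ∃ m ∈ Icc 1 T.card, e m = n := by
  classical
  have hc : (Icc 1 T.card).card = T.card := by rw [Nat.card_Icc]; omega
  set E := Finset.equivOfCardEq hc with hE
  refine ⟨fun m => if h : m ∈ Icc 1 T.card then (E ⟨m, h⟩ : ℕ) else 0, ?_, ?_, ?_⟩
  · intro m hm
    simp only [dif_pos hm]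
    exact (E ⟨m, hm⟩).2
  · intro m hm n hn h
    simp only [dif_pos hm, dif_pos hn] at h
    have := E.injective (Subtype.ext h)
    exact congrArg Subtype.val this
  · intro n hn
    refine ⟨(E.symm ⟨n, hn⟩ : ℕ), (E.symm ⟨n, hn⟩).2, ?_⟩
    simp only [dif_pos (E.symm ⟨n, hn⟩).2]
    simp

/-- the energy of a subfamily, dilated and shifted -/
lemma energy_mono (h x x' : ℕ) (s s' φ : ℕ → ℕ) (c κ : ℕ) (hκ : 1 ≤ κ) (hφ : ∀ m ∈ Icc 1 x, φ m ∈ Icc 1 x')
    (hinj : ∀ m ∈ Icc 1 x, ∀ n ∈ Icc 1 x, φ m = φ n → m = n) (hs : ∀ m ∈ Icc 1 x, s m = c + κ * s' (φ m)) :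
    energy h x s ≤ energy h x' s' := by
  classical
  unfold energy
  apply card_le_card_of_injOn (fun q => (fun i => φ (q.1 i), fun i => φ (q.2 i)))
  · intro q hq
    rw [mem_coe, mem_filter, mem_product, Fintype.mem_piFinset, Fintype.mem_piFinset] at hq
    obtain ⟨⟨h1, h2⟩, h3⟩ := hq
    rw [mem_coe, mem_filter, mem_product, Fintype.mem_piFinset, Fintype.mem_piFinset]
    refine ⟨⟨fun i => hφ _ (h1 i), fun i => hφ _ (h2 i)⟩, ?_⟩
    rw [sum_congr rfl fun i _ => hs _ (h1 i), sum_congr rfl fun i _ => hs _ (h2 i), sum_add_distrib,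
      sum_add_distrib, ← mul_sum, ← mul_sum] at h3
    exact Nat.eq_of_mul_eq_mul_left (by omega) (Nat.add_left_cancel h3)
  · intro q hq q' hq' he
    rw [mem_coe, mem_filter, mem_product, Fintype.mem_piFinset, Fintype.mem_piFinset] at hq hq'
    simp only [Prod.mk.injEq] at he
    ext i
    · exact hinj _ (hq.1.1 i) _ (hq'.1.1 i) (congrFun he.1 i)
    · exact hinj _ (hq.1.2 i) _ (hq'.1.2 i) (congrFun he.2 i)

/-- the energy of the set of the integers composed of given primes -/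
theorem energy_S (hP : ∀ p ∈ P, p.Prime ∧ p ≤ y) (hy : 1 ≤ y) {X : ℕ} (hX : 64 ≤ X) {α : ℝ} (hα0 : 0 ≤ α)
    (hα1 : α ≤ 1) (hR : Reg P y X α) (h : ℕ) (hh : 5 ≤ h * (2 * α - 1)) (e : ℕ → ℕ)
    (he1 : ∀ m ∈ Icc 1 (S P X).card, e m ∈ S P X)
    (he2 : ∀ m ∈ Icc 1 (S P X).card, ∀ n ∈ Icc 1 (S P X).card, e m = e n → m = n)
    (he3 : ∀ n ∈ S P X, ∃ m ∈ Icc 1 (S P X).card, e m = n) :
    (X : ℝ) * energy h (S P X).card e ≤ 32 * (1000 * (y : ℝ) ^ 4 * (1 + Real.log X) * psi P X) ^ (2 * h) := by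
  classical
  have h1 := Pool.Agent.H373R2.T7.energy_le h (S P X).card (fun m => (e m : ℤ) - 0) X (by omega)
  have h2 := Pool.Agent.W93.GB.energy_eq h (S P X).card e 0
  rw [h2] at h1
  refine h1.trans (le_of_eq_of_le ?_ (moment hP hy hX hα0 hα1 hR h hh))
  apply sum_congr rfl
  intro t _
  congr 2
  apply sum_bij (fun m _ => e m)
  · intro m hm; exact he1 m hm
  · intro m hm n hn h; exact he2 m hm n hn h
  · intro n hn
    obtain ⟨m, hm, hmn⟩ := he3 n hn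
    exact ⟨m, hm, hmn⟩
  · intro m _
    congr 1
    push_cast
    ring

/-- eventually the logarithm exceeds a given bound -/
lemma ev_log (K : ℝ) : ∃ X₀ : ℕ, ∀ X : ℕ, X₀ ≤ X → K ≤ Real.log X := by
  refine ⟨⌈Real.exp K⌉₊, fun X hX => ?_⟩
  have h1 : Real.exp K ≤ X := (Nat.le_ceil _).trans (by exact_mod_cast hX)
  rw [← Real.log_exp K]
  exact Real.log_le_log (Real.exp_pos _) h1

/-- the energy of the set of the integers composed of given primes is nearly minimal -/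
theorem energy_min (C : ℕ) (δ : ℝ) (hδ : 0 < δ) : ∃ h D X₀ : ℕ, 1 ≤ h ∧ ∀ X : ℕ, X₀ ≤ X → ∀ y : ℕ, 2 ≤ y →
    (y : ℝ) ≤ Real.log X ^ C → ∀ P : Finset ℕ, (∀ p ∈ P, p.Prime ∧ p ≤ y) →
    (y : ℝ) ^ (1 / 2 + δ) * Real.log X ≤ P.card → ∀ e : ℕ → ℕ,
    (∀ m ∈ Icc 1 (S P X).card, e m ∈ S P X) →
    (∀ m ∈ Icc 1 (S P X).card, ∀ n ∈ Icc 1 (S P X).card, e m = e n → m = n) →
    (∀ n ∈ S P X, ∃ m ∈ Icc 1 (S P X).card, e m = n) →
    (X : ℝ) * energy h (S P X).card e ≤ Real.log X ^ D * (psi P X : ℝ) ^ (2 * h) := by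
  classical
  set δ' := min δ (1 / 2) with hδ'
  have hδ0 : 0 < δ' := lt_min hδ (by norm_num)
  have hδ1 : δ' ≤ δ := min_le_left _ _
  have hδ2 : δ' ≤ 1 / 2 := min_le_right _ _
  set α : ℝ := 1 / 2 + δ' / 2 with hα
  obtain ⟨h, hh⟩ : ∃ h : ℕ, h = ⌈5 / δ'⌉₊ := ⟨_, rfl⟩
  have hh1 : 5 ≤ h * (2 * α - 1) := by
    have h1 : 5 / δ' ≤ h := by rw [hh]; exact Nat.le_ceil _
    rw [div_le_iff₀ hδ0] at h1
    rw [hα]
    linarith
  have hh2 : 1 ≤ h := by
    rw [hh]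
    exact Nat.one_le_iff_ne_zero.2 (by rw [ne_eq, Nat.ceil_eq_zero, not_le]; positivity)
  obtain ⟨X1, hX1⟩ := ev_log (max 2000 ((2 : ℝ) ^ (2 / δ')))
  refine ⟨h, (4 * C + 2) * (2 * h) + 1, max X1 64, hh2, fun X hX y hy hyC P hP hc e he1 he2 he3 => ?_⟩
  have hL := hX1 X (le_trans (le_max_left _ _) hX)
  have hX64 : 64 ≤ X := le_trans (le_max_right _ _) hX
  set L := Real.log X with hLd
  have hL1 : 2000 ≤ L := (le_max_left _ _).trans hL
  have hL2 : (2 : ℝ) ^ (2 / δ') ≤ L := (le_max_right _ _).trans hL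
  have hL0 : 0 < L := by linarith
  have hy1 : (1 : ℝ) ≤ y := by exact_mod_cast (by omega : 1 ≤ y)
  have hy0 : (0 : ℝ) < y := by linarith
  -- `y` is at least `L`
  have hyL : L ≤ y := by
    have h1 : (P.card : ℝ) ≤ y := by exact_mod_cast card_P_le hP
    have h2 : (1 : ℝ) ≤ (y : ℝ) ^ (1 / 2 + δ) := Real.one_le_rpow hy1 (by positivity)
    nlinarith
  have hy2 : (2 : ℝ) ≤ (y : ℝ) ^ (δ' / 2) := by
    have h1 : ((2 : ℝ) ^ (2 / δ')) ^ (δ' / 2) = 2 := by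
      rw [← Real.rpow_mul (by norm_num)]
      have : 2 / δ' * (δ' / 2) = 1 := by field_simp
      rw [this, Real.rpow_one]
    calc (2 : ℝ) = ((2 : ℝ) ^ (2 / δ')) ^ (δ' / 2) := h1.symm
      _ ≤ (y : ℝ) ^ (δ' / 2) := Real.rpow_le_rpow (by positivity) (hL2.trans hyL) (by positivity)
  set U := Nat.log 2 X with hU
  have hU1 : 1 ≤ U := Nat.log_pos (by norm_num) (by omega)
  have hUL : (U : ℝ) ≤ 2 * L := by
    have h1 : 2 ^ U ≤ X := Nat.pow_log_le_self 2 (by omega)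
    have h2 : ((2 : ℝ) ^ U) ≤ X := by exact_mod_cast h1
    have h3 : (U : ℝ) * Real.log 2 ≤ L := by
      rw [← Real.log_pow]
      exact Real.log_le_log (by positivity) h2
    have h4 : (1 / 2 : ℝ) ≤ Real.log 2 := by
      have := Real.log_two_gt_d9
      linarith
    have h5 : (0 : ℝ) ≤ U := Nat.cast_nonneg _
    nlinarith
  have hcond : (y : ℝ) ^ α * U ≤ P.card := by
    refine le_trans ?_ hc
    calc (y : ℝ) ^ α * U ≤ (y : ℝ) ^ α * (2 * L) := by gcongr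
      _ = (y : ℝ) ^ α * 2 * L := by ring
      _ ≤ (y : ℝ) ^ α * (y : ℝ) ^ (δ' / 2) * L := by gcongr
      _ = (y : ℝ) ^ (1 / 2 + δ') * L := by
          rw [← Real.rpow_add hy0]
          congr 2
          rw [hα]; ring
      _ ≤ (y : ℝ) ^ (1 / 2 + δ) * L := by
          gcongr
  have hR := reg_of hP hy (X := X) le_rfl hU1 (by rw [hα]; positivity) (by rw [hα]; linarith) hcond
  refine (energy_S hP (by omega) hX64 (by rw [hα]; positivity) (by rw [hα]; linarith) hR h hh1 e he1 he2 he3).trans ?_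
  set ψ : ℝ := ((psi P X : ℕ) : ℝ) with hψ
  have hψ0 : 0 ≤ ψ := Nat.cast_nonneg _
  have h1 : 1000 * (y : ℝ) ^ 4 * (1 + L) ≤ L ^ (4 * C + 2) := by
    calc 1000 * (y : ℝ) ^ 4 * (1 + L) ≤ 1000 * (L ^ C) ^ 4 * (2 * L) := by
          gcongr
          linarith
      _ = 2000 * L ^ (4 * C + 1) := by ring
      _ ≤ L * L ^ (4 * C + 1) := by gcongr
      _ = _ := by ring
  calc 32 * (1000 * (y : ℝ) ^ 4 * (1 + L) * ψ) ^ (2 * h) ≤ L * (L ^ (4 * C + 2) * ψ) ^ (2 * h) := by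
        gcongr
        linarith
    _ = _ := by ring

/-- the number of exceptional shifts for Goldbach's problem among the members of a dilated and shifted
copy of the set of the integers composed of given primes -/
theorem goldbach (C U : ℕ) (δ ε : ℝ) (hδ : 0 < δ) (hε : 0 < ε) : ∃ X₀ : ℕ, ∀ X : ℕ, X₀ ≤ X → ∀ y : ℕ, 2 ≤ y →
    (y : ℝ) ≤ Real.log X ^ C → ∀ P : Finset ℕ, (∀ p ∈ P, p.Prime ∧ p ≤ y) →
    (y : ℝ) ^ (1 / 2 + δ) * Real.log X ≤ P.card → ∀ c κ : ℕ, 1 ≤ κ → ((c + κ * X : ℕ) : ℝ) ≤ X * Real.log X ^ C →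
    ∀ T ⊆ S P X, (∀ l ∈ T, 2 ∣ c + κ * l ∧ ¬ Pool.Agent.W93.GB.Good ε (c + κ * l)) →
    (T.card : ℝ) ≤ (S P X).card / Real.log X ^ U := by
  classical
  obtain ⟨h, D, X1, hh, hE⟩ := energy_min C δ hδ
  obtain ⟨N₀, hfam⟩ := Pool.Agent.W93.GB.fam h 1 (C + 1 + D + U * (2 * h)) U hh ε hε
  obtain ⟨X2, hX2⟩ := ev_log 2
  refine ⟨max (max X1 N₀) (max X2 64), fun X hX y hy hyC P hP hc c κ hκ hcκ T hT hTb => ?_⟩
  have hXN : N₀ ≤ X := le_trans (le_trans (le_max_right _ _) (le_max_left _ _)) hX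
  have hL2 := hX2 X (le_trans (le_trans (le_max_left _ _) (le_max_right _ _)) hX)
  have hX64 : 64 ≤ X := le_trans (le_trans (le_max_right _ _) (le_max_right _ _)) hX
  obtain ⟨e, he1, he2, he3⟩ := enum (S P X)
  have hEn := hE X (le_trans (le_trans (le_max_left _ _) (le_max_left _ _)) hX) y hy hyC P hP hc e he1 he2 he3
  set L := Real.log X with hLd
  have hL0 : 0 < L := by linarith
  have hL1 : 1 ≤ L := by linarith
  have hX0 : (0 : ℝ) < X := by exact_mod_cast (by omega : 0 < X)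
  set V := (S P X).filter (fun l => 2 ∣ c + κ * l) with hV
  have hVS : V ⊆ S P X := filter_subset _ _
  have hTV : T ⊆ V := by
    intro l hl
    rw [hV, mem_filter]
    exact ⟨hT hl, (hTb l hl).1⟩
  have hTVc : (T.card : ℝ) ≤ V.card := by exact_mod_cast card_le_card hTV
  by_cases hsmall : (V.card : ℝ) ≤ (S P X).card / L ^ U
  · exact hTVc.trans hsmall
  push Not at hsmall
  rw [div_lt_iff₀ (by positivity)] at hsmall
  obtain ⟨f, hf1, hf2, hf3⟩ := enum V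
  -- the map between the enumerations
  have hex : ∀ m ∈ Icc 1 V.card, ∃ m' ∈ Icc 1 (S P X).card, e m' = f m := fun m hm => he3 _ (hVS (hf1 m hm))
  choose! φ hφ1 hφ2 using hex
  set N := X * ⌈L ^ C⌉₊ with hN
  have hceil : (L ^ C : ℝ) ≤ (⌈L ^ C⌉₊ : ℝ) := Nat.le_ceil _
  have hceil1 : 1 ≤ ⌈L ^ C⌉₊ := Nat.one_le_ceil_iff.2 (by positivity)
  have hNX : X ≤ N := Nat.le_mul_of_pos_right _ hceil1
  have hNr : (N : ℝ) ≤ X * L ^ (C + 1) := by
    rw [hN]
    push_cast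
    apply mul_le_mul_of_nonneg_left _ hX0.le
    have h1 : (⌈L ^ C⌉₊ : ℝ) < L ^ C + 1 := Nat.ceil_lt_add_one (by positivity)
    have h2 : (1 : ℝ) ≤ L ^ C := one_le_pow₀ hL1
    calc (⌈L ^ C⌉₊ : ℝ) ≤ L ^ C * 2 := by linarith
      _ ≤ L ^ C * L := by gcongr
      _ = _ := by ring
  have hLN : L ≤ Real.log N := by
    rw [hLd]
    exact Real.log_le_log hX0 (by exact_mod_cast hNX)
  have hs : ∀ m ∈ Icc 1 V.card, (fun m => c + κ * f m) m ≤ 1 * N ∧ 2 ∣ (fun m => c + κ * f m) m := by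
    intro m hm
    have h1 := hf1 m hm
    rw [hV, mem_filter] at h1
    refine ⟨?_, h1.2⟩
    have h2 : f m ≤ X := (mem_S.1 h1.1).2.1
    have h3 : c + κ * f m ≤ c + κ * X := by gcongr
    have h4 : ((c + κ * X : ℕ) : ℝ) ≤ N := by
      rw [hN]
      push_cast at hcκ ⊢
      refine hcκ.trans ?_
      gcongr
    have h5 : c + κ * X ≤ N := by exact_mod_cast h4
    simp only [one_mul]
    omega
  have hen1 : energy h V.card (fun m => c + κ * f m) ≤ energy h (S P X).card e := by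
    apply energy_mono h V.card (S P X).card (fun m => c + κ * f m) e φ c κ hκ hφ1
    · intro m hm n hn hmn
      apply hf2 m hm n hn
      rw [← hφ2 m hm, ← hφ2 n hn, hmn]
    · intro m hm
      rw [hφ2 m hm]
  have hen2 : (energy h V.card (fun m => c + κ * f m) : ℝ) * N ≤
      Real.log N ^ (C + 1 + D + U * (2 * h)) * (V.card : ℝ) ^ (2 * h) := by
    have h1 : (energy h V.card (fun m => c + κ * f m) : ℝ) ≤ energy h (S P X).card e := by exact_mod_cast hen1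
    have h2 : (psi P X : ℝ) ≤ V.card * L ^ U := hsmall.le
    calc _ ≤ (energy h (S P X).card e : ℝ) * (X * L ^ (C + 1)) := by gcongr
      _ = (X * energy h (S P X).card e) * L ^ (C + 1) := by ring
      _ ≤ (L ^ D * (psi P X : ℝ) ^ (2 * h)) * L ^ (C + 1) := by gcongr
      _ ≤ (L ^ D * (V.card * L ^ U) ^ (2 * h)) * L ^ (C + 1) := by gcongr
      _ = L ^ (C + 1 + D + U * (2 * h)) * (V.card : ℝ) ^ (2 * h) := by ring
      _ ≤ _ := by gcongr
  have hfin := hfam N (hXN.trans hNX) V.card (fun m => c + κ * f m) hs hen2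
    ((Icc 1 V.card).filter (fun m => f m ∈ T)) (filter_subset _ _) (by
      intro m hm
      exact (hTb _ (mem_filter.1 hm).2).2)
  have hcardT : T.card ≤ ((Icc 1 V.card).filter (fun m => f m ∈ T)).card := by
    apply card_le_card_of_surjOn f
    intro l hl
    obtain ⟨m, hm, hml⟩ := hf3 l (hTV hl)
    refine ⟨m, ?_, hml⟩
    rw [mem_coe, mem_filter]
    exact ⟨hm, by rw [hml]; exact hl⟩
  have hVSc : (V.card : ℝ) ≤ (S P X).card := Nat.cast_le.2 (card_le_card hVS)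
  have hpow : L ^ U ≤ Real.log N ^ U := pow_le_pow_left₀ hL0.le hLN U
  calc (T.card : ℝ) ≤ ((Icc 1 V.card).filter (fun m => f m ∈ T)).card := Nat.cast_le.2 hcardT
    _ ≤ V.card / Real.log N ^ U := hfin
    _ ≤ (S P X).card / L ^ U := div_le_div₀ (Nat.cast_nonneg _) hVSc (pow_pos hL0 U) hpow

end Pool.Agent.K7.H49.SM
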