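import Mathlib
import Pool.Agent.K7.H49.SM.Fam
import Pool.Agent.R501.CP4

/-! The Liouville function at the values of polynomials times linear factors whose constant terms are taken from
families of nearly minimal additive energy, and from sets of integers composed of given primes (helper49). -/

set_option autoImplicit false

namespace Pool.Agent.K7.H49.SM

open Finset
open Pool.Agent.H560R3.GB (energy)
open Pool.Agent.R501.CP (lamSum Chowla floor_log energy_affine thin_chowla)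
open Pool.Agent.R459.Fams (count count_eq)

/-- All the sums are small. -/
def Small (B κ U N : ℕ) {s L : ℕ} (f : Fin L → Polynomial ℤ) (α : Fin s → ℕ) (a : Fin s → ℤ) : Prop :=
  ∀ l, ∀ I : Finset (Fin s), I.Nonempty → ∀ q : ℕ, 1 ≤ q → (q : ℝ) ≤ Real.log N ^ κ → ∀ r u v : ℤ,
    (∀ i ∈ I, (α i : ℤ) * |u| ≤ B * N ∧ (α i : ℤ) * |v| ≤ B * N) →
    |((lamSum (f l) α a I q r u v : ℤ) : ℝ)| ≤ N / Real.log N ^ U

/-- families of nearly minimal energy -/
theorem cho_fam (B C κ U h : ℕ) : ∃ N₀ : ℕ, ∀ N : ℕ, N₀ ≤ N → ∀ s L : ℕ, (2 : ℝ) ^ s ≤ Real.log N ^ κ →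
    (L : ℝ) ≤ Real.log N ^ κ → ∀ (x : Fin s → ℕ) (b : Fin s → ℕ → ℕ) (γ c : Fin s → ℤ), (∀ i, γ i ≠ 0) →
    (∀ i, ∀ m ∈ Icc 1 (x i), |c i + γ i * b i m| ≤ B * N) →
    (∀ i, (energy h (x i) (b i) : ℝ) * N ≤ Real.log N ^ C * (x i : ℝ) ^ (2 * h)) →
    ∀ α : Fin s → ℕ, (∀ i, 1 ≤ α i) → ∀ f : Fin L → Polynomial ℤ,
    count (Fintype.piFinset fun i : Fin s => Icc 1 (x i)) (fun m => ¬ Small B κ U N f α (fun i => c i + γ i * b i (m i))) ≤
      (∏ i, (x i : ℝ)) / Real.log N ^ U := by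
  classical
  obtain ⟨N₀, h0⟩ := thin_chowla B C (κ + 1) (U + 1) h
  obtain ⟨N1, h1⟩ := floor_log κ
  obtain ⟨N2, h2⟩ := floor_log U
  refine ⟨N₀ + N1 + N2, fun N hN s L hs hL x b γ c hγ hb hE α hα f => ?_⟩
  obtain ⟨k, hk⟩ : ∃ k, k = ⌊Real.log (N : ℝ)⌋₊ := ⟨_, rfl⟩
  obtain ⟨hk3, hκ, -, hkL⟩ := h1 N (by omega)
  obtain ⟨-, hU, -, -⟩ := h2 N (by omega)
  rw [← hk] at hk3 hκ hkL hU
  have hk0 : (0 : ℝ) < k := by exact_mod_cast (by omega : 0 < k)
  have hlog0 : (0 : ℝ) < Real.log N := by linarith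
  have hs' : 2 ^ s ≤ k ^ (κ + 1) := by
    have : (2 : ℝ) ^ s ≤ (k : ℝ) ^ (κ + 1) := hs.trans hκ
    exact_mod_cast this
  have hL' : L ≤ k ^ (κ + 1) := by
    have : (L : ℝ) ≤ (k : ℝ) ^ (κ + 1) := hL.trans hκ
    exact_mod_cast this
  have key := h0 N (by omega) k hk s L hs' hL' x (fun _ => h) (fun i m => c i + γ i * b i m) (fun _ => le_rfl) hb
    (fun i => by
      have e1 : Pool.Agent.H373R2.T7.energy h (x i) (fun m => c i + γ i * b i m) = energy h (x i) (b i) := by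
        have e2 := energy_affine h (x i) (fun m => ((b i m : ℕ) : ℤ)) (γ i) (c i) (hγ i)
        have e3 := Pool.Agent.W93.GB.energy_eq h (x i) (b i) 0
        have e4 : (fun m => c i + γ i * (b i m : ℤ)) = fun m => γ i * (b i m : ℤ) + c i := by
          funext m; ring
        rw [e4, e2, ← e3]
        congr 1
        all_goals (funext m; ring)
      rw [e1]
      exact hE i) α hα f
  have hx0 : (0 : ℝ) ≤ ∏ i, (x i : ℝ) := prod_nonneg fun _ _ => Nat.cast_nonneg _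
  rw [count_eq] at key ⊢
  refine le_trans ?_ (key.trans (div_le_div_of_nonneg_left hx0 (by positivity) hU))
  rw [Nat.cast_le]
  apply card_le_card
  intro m hm
  rw [mem_filter] at hm ⊢
  refine ⟨hm.1, fun hcon => hm.2 ?_⟩
  intro l I hI q hq1 hq2 r u v huv
  have hq' : q ≤ k ^ (κ + 1) := by
    have : (q : ℝ) ≤ (k : ℝ) ^ (κ + 1) := hq2.trans hκ
    exact_mod_cast this
  refine (hcon l I hI q hq1 hq' r u v huv).trans ?_
  exact div_le_div_of_nonneg_left (Nat.cast_nonneg _) (by positivity) hU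

/-- constant terms composed of given primes -/
theorem cho (B C κ U : ℕ) (δ : ℝ) (hδ : 0 < δ) : ∃ X₀ : ℕ, ∀ X : ℕ, X₀ ≤ X →
    ∀ N : ℕ, X ≤ N → (N : ℝ) ≤ X * Real.log X ^ C →
    ∀ s L : ℕ, (2 : ℝ) ^ s ≤ Real.log N ^ κ → (L : ℝ) ≤ Real.log N ^ κ →
    ∀ y : Fin s → ℕ, (∀ i, 2 ≤ y i ∧ (y i : ℝ) ≤ Real.log X ^ C) →
    ∀ P : Fin s → Finset ℕ, (∀ i, ∀ p ∈ P i, p.Prime ∧ p ≤ y i) →
    (∀ i, (y i : ℝ) ^ (1 / 2 + δ) * Real.log X ≤ (P i).card) →
    ∀ γ c : Fin s → ℤ, (∀ i, γ i ≠ 0 ∧ |c i| + |γ i| * X ≤ B * N) →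
    ∀ α : Fin s → ℕ, (∀ i, 1 ≤ α i) → ∀ f : Fin L → Polynomial ℤ,
    count (Fintype.piFinset fun i : Fin s => S (P i) X) (fun l => ¬ Small B κ U N f α (fun i => c i + γ i * l i)) ≤
      (∏ i, ((S (P i) X).card : ℝ)) / Real.log N ^ U := by
  classical
  obtain ⟨h, D, X1, hh, hE⟩ := energy_min C δ hδ
  obtain ⟨N₀, hfam⟩ := cho_fam B (C + D) κ U h
  obtain ⟨X2, hX2⟩ := ev_log 2
  refine ⟨max (max X1 N₀) (max X2 64), fun X hX N hXN hNX s L hs hL y hy P hP hc γ c hγc α hα f => ?_⟩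
  have hXN0 : N₀ ≤ X := le_trans (le_trans (le_max_right _ _) (le_max_left _ _)) hX
  have hL2 := hX2 X (le_trans (le_trans (le_max_left _ _) (le_max_right _ _)) hX)
  have hX64 : 64 ≤ X := le_trans (le_trans (le_max_right _ _) (le_max_right _ _)) hX
  have hen := fun i => enum (S (P i) X)
  choose e he1 he2 he3 using hen
  have hEn := fun i => hE X (le_trans (le_trans (le_max_left _ _) (le_max_left _ _)) hX) (y i) (hy i).1 (hy i).2
    (P i) (hP i) (hc i) (e i) (he1 i) (he2 i) (he3 i)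
  set L' := Real.log X with hLd
  have hL0 : 0 < L' := by linarith
  have hX0 : (0 : ℝ) < X := by exact_mod_cast (by omega : 0 < X)
  have hLN : L' ≤ Real.log N := Real.log_le_log hX0 (by exact_mod_cast hXN)
  have h1 := hfam N (hXN0.trans hXN) s L hs hL (fun i => (S (P i) X).card) e γ c (fun i => (hγc i).1)
    (fun i m hm => by
      have h2 : e i m ≤ X := (mem_S.1 (he1 i m hm)).2.1
      have h2z : ((e i m : ℕ) : ℤ) ≤ X := by exact_mod_cast h2
      calc |c i + γ i * (e i m : ℤ)| ≤ |c i| + |γ i * (e i m : ℤ)| := abs_add_le _ _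
        _ = |c i| + |γ i| * (e i m : ℤ) := by rw [abs_mul, abs_of_nonneg (Int.natCast_nonneg (e i m))]
        _ ≤ |c i| + |γ i| * X := by gcongr
        _ ≤ _ := (hγc i).2)
    (fun i => by
      calc _ ≤ (energy h (S (P i) X).card (e i) : ℝ) * (X * L' ^ C) := by gcongr
        _ = (X * energy h (S (P i) X).card (e i)) * L' ^ C := by ring
        _ ≤ (L' ^ D * (psi (P i) X : ℝ) ^ (2 * h)) * L' ^ C := mul_le_mul_of_nonneg_right (hEn i) (by positivity)
        _ = L' ^ (C + D) * (psi (P i) X : ℝ) ^ (2 * h) := by ring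
        _ ≤ Real.log N ^ (C + D) * (psi (P i) X : ℝ) ^ (2 * h) := by gcongr
        _ = _ := rfl) α hα f
  refine le_trans ?_ h1
  rw [count_eq, count_eq]
  apply Nat.cast_le.2
  apply card_le_card_of_surjOn (fun m : Fin s → ℕ => fun i => e i (m i))
  intro l hl
  rw [mem_coe, mem_filter, Fintype.mem_piFinset] at hl
  choose m hm hml using fun i => he3 i (l i) (hl.1 i)
  refine ⟨m, ?_, funext hml⟩
  rw [mem_coe, mem_filter, Fintype.mem_piFinset]
  refine ⟨hm, ?_⟩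
  have e1 : (fun i => c i + γ i * ((e i (m i) : ℕ) : ℤ)) = fun i => c i + γ i * ((l i : ℕ) : ℤ) := by
    funext i
    rw [hml i]
  rw [e1]
  exact hl.2

end Pool.Agent.K7.H49.SM
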